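import Pool.Agent.Helper386.FF.Fund

/-! Embedding of a discretely valued field into Laurent series over the residue field. -/

set_option autoImplicit false
set_option linter.all false
set_option linter.overlappingInstances false

open Module FF

namespace FF

section abstract_part

variable {O κ : Type*} [CommRing O] [Field κ] (I : Ideal O) (f : O →+* κ) (π : O)
  (hfI : ∀ a, f a = 0 ↔ a ∈ I) (hI : I = Ideal.span {π})
  (hreg : ∀ (n : ℕ) (b : O) (M : ℕ), n < M → π ^ n * b ∈ I ^ M → b ∈ I)
  (σ : ∀ n : ℕ, κ →+* O ⧸ I ^ n)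
  (hσ : ∀ (n m : ℕ), m ≤ n → ∀ (c : κ) (b : O), Ideal.Quotient.mk (I ^ n) b = σ n c →
    Ideal.Quotient.mk (I ^ m) b = σ m c)
  (hσf : ∀ (c : κ) (b : O), Ideal.Quotient.mk (I ^ 1) b = σ 1 c → f b = c)

/-- evaluation of polynomials -/
noncomputable def gam (n : ℕ) : Polynomial κ →+* O ⧸ I ^ n :=
  Polynomial.eval₂RingHom (σ n) (Ideal.Quotient.mk (I ^ n) π)

theorem gam_C (n : ℕ) (c : κ) : gam I π σ n (Polynomial.C c) = σ n c := by simp [gam]

theorem gam_X (n : ℕ) : gam I π σ n Polynomial.X = Ideal.Quotient.mk (I ^ n) π := by simp [gam]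

include hσ in
theorem gam_compat (n m : ℕ) (h : m ≤ n) (p : Polynomial κ) (b : O)
    (hb : Ideal.Quotient.mk (I ^ n) b = gam I π σ n p) : Ideal.Quotient.mk (I ^ m) b = gam I π σ m p := by
  have hle : I ^ n ≤ I ^ m := Ideal.pow_le_pow_right h
  let r : O ⧸ I ^ n →+* O ⧸ I ^ m := Ideal.Quotient.factor hle
  have hr : ∀ b : O, r (Ideal.Quotient.mk (I ^ n) b) = Ideal.Quotient.mk (I ^ m) b := fun b => rfl
  have h1 : r.comp (gam I π σ n) = gam I π σ m := by
    apply Polynomial.ringHom_ext
    · intro c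
      rw [RingHom.comp_apply, gam_C, gam_C]
      obtain ⟨b, hb⟩ := Ideal.Quotient.mk_surjective (σ n c)
      rw [← hb, hr]
      exact hσ n m h c b hb
    · rw [RingHom.comp_apply, gam_X, gam_X]; rfl
  rw [← h1, RingHom.comp_apply, ← hb, hr]

include hI in
theorem pi_mem_pow (n : ℕ) : π ^ n ∈ I ^ n := by
  apply Ideal.pow_mem_pow
  rw [hI]; exact Ideal.mem_span_singleton_self π

include hfI hI hσ hσf in
theorem gam_one (M : ℕ) (hM : 1 ≤ M) (p : Polynomial κ) (b : O)
    (hb : Ideal.Quotient.mk (I ^ M) b = gam I π σ M p) : f b = p.coeff 0 := by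
  have h1 := gam_compat I π σ hσ M 1 hM p b hb
  let r : O ⧸ I ^ 1 →+* κ := Ideal.Quotient.lift (I ^ 1) f (by
    intro a ha
    rw [pow_one] at ha
    exact (hfI a).2 ha)
  have hr : ∀ b : O, r (Ideal.Quotient.mk (I ^ 1) b) = f b := fun b => rfl
  have h2 : r.comp (gam I π σ 1) = Polynomial.constantCoeff := by
    apply Polynomial.ringHom_ext
    · intro c
      rw [RingHom.comp_apply, gam_C]
      obtain ⟨b, hb⟩ := Ideal.Quotient.mk_surjective (σ 1 c)
      rw [← hb, hr, hσf c b hb]
      simp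
    · rw [RingHom.comp_apply, gam_X, hr]
      have : f π = 0 := by
        rw [hfI, hI]; exact Ideal.mem_span_singleton_self π
      rw [this]; simp
  rw [← hr b, h1, ← RingHom.comp_apply, h2]
  simp

include hfI hI hreg hσ hσf in
theorem gam_eq_zero (M : ℕ) (p : Polynomial κ) (hp : gam I π σ M p = 0) : ∀ i < M, p.coeff i = 0 := by
  intro i
  induction i using Nat.strong_induction_on with
  | _ i ih =>
    intro hi
    have h1 : Polynomial.X ^ i ∣ p := by
      rw [Polynomial.X_pow_dvd_iff]
      intro d hd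
      exact ih d hd (hd.trans hi)
    obtain ⟨q, rfl⟩ := h1
    have h2 : (Polynomial.X ^ i * q).coeff i = q.coeff 0 := by
      have := Polynomial.coeff_X_pow_mul q i 0
      simpa using this
    rw [h2]
    obtain ⟨b, hb⟩ := Ideal.Quotient.mk_surjective (gam I π σ M q)
    rw [← gam_one I f π hfI hI σ hσ hσf M (by omega) q b hb]
    rw [hfI]
    apply hreg i b M hi
    rw [← Ideal.Quotient.eq_zero_iff_mem, map_mul, map_pow, hb, ← hp, map_mul, map_pow, gam_X]

include hI in
theorem gam_congr (M : ℕ) (p q : Polynomial κ) (h : ∀ i < M, p.coeff i = q.coeff i) :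
    gam I π σ M p = gam I π σ M q := by
  have h1 : Polynomial.X ^ M ∣ p - q := by
    rw [Polynomial.X_pow_dvd_iff]
    intro d hd
    rw [Polynomial.coeff_sub, h d hd, sub_self]
  obtain ⟨r, hr⟩ := h1
  have h2 : p = q + Polynomial.X ^ M * r := by rw [← hr]; ring
  rw [h2, map_add, map_mul, map_pow, gam_X, ← map_pow,
    (Ideal.Quotient.eq_zero_iff_mem).2 (pi_mem_pow I π hI M), zero_mul, add_zero]

include hfI hI hσ hσf in
theorem gam_surj (M : ℕ) (a : O) : ∃ p : Polynomial κ, gam I π σ M p = Ideal.Quotient.mk (I ^ M) a := by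
  rcases Nat.eq_zero_or_pos M with rfl | hM
  · refine ⟨0, ?_⟩
    haveI : Subsingleton (O ⧸ I ^ 0) := by simp
    exact Subsingleton.elim _ _
  have key : ∀ j ≤ M, ∃ (p : Polynomial κ) (b : O), Ideal.Quotient.mk (I ^ M) a =
      gam I π σ M p + Ideal.Quotient.mk (I ^ M) (π ^ j * b) := by
    intro j
    induction j with
    | zero => intro _; exact ⟨0, a, by simp⟩
    | succ j ih =>
      intro hj
      obtain ⟨p, b, hpb⟩ := ih (by omega)
      obtain ⟨e, he⟩ := Ideal.Quotient.mk_surjective (σ M (f b))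
      have h1 : f e = f b := by
        have := gam_one I f π hfI hI σ hσ hσf M hM (Polynomial.C (f b)) e (by rw [gam_C, he])
        simpa using this
      have h2 : b - e ∈ I := by rw [← hfI, map_sub, h1, sub_self]
      rw [hI, Ideal.mem_span_singleton] at h2
      obtain ⟨b', hb'⟩ := h2
      refine ⟨p + Polynomial.X ^ j * Polynomial.C (f b), b', ?_⟩
      have h3 : b = e + π * b' := by rw [← hb']; ring
      rw [hpb, map_add (gam I π σ M), map_mul (gam I π σ M), map_pow (gam I π σ M), gam_X, gam_C, ← he]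
      conv_lhs => rw [h3]
      simp only [map_mul, map_add, map_pow]
      ring
  obtain ⟨p, b, h⟩ := key M le_rfl
  refine ⟨p, ?_⟩
  rw [h, map_mul, (Ideal.Quotient.eq_zero_iff_mem).2 (pi_mem_pow I π hI M), zero_mul, add_zero]

include hfI hI hreg hσ hσf in
theorem exists_ps : ∃ Λ : O →+* PowerSeries κ, (Λ π = PowerSeries.X) ∧
    (∀ a, PowerSeries.constantCoeff (Λ a) = f a) ∧
    (∀ (a : O) (c : κ), (∀ n, Ideal.Quotient.mk (I ^ n) a = σ n c) → Λ a = PowerSeries.C c) := by
  classical
  choose P hP using gam_surj I f π hfI hI σ hσ hσf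
  let Λ : O → PowerSeries κ := fun a => PowerSeries.mk (fun i => (P (i + 1) a).coeff i)
  have hΛ : ∀ (M : ℕ) (a : O), gam I π σ M (PowerSeries.trunc M (Λ a)) = Ideal.Quotient.mk (I ^ M) a := by
    intro M a
    rw [← hP M a]
    apply gam_congr I π hI σ
    intro i hi
    rw [PowerSeries.coeff_trunc, if_pos hi, PowerSeries.coeff_mk]
    have h1 := gam_compat I π σ hσ M (i + 1) (by omega) (P M a) a (hP M a).symm
    rw [← hP (i + 1) a] at h1
    have h2 := gam_eq_zero I f π hfI hI hreg σ hσ hσf (i + 1) (P (i + 1) a - P M a) (by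
      rw [map_sub, h1, sub_self]) i (by omega)
    rw [Polynomial.coeff_sub, sub_eq_zero] at h2
    exact h2
  have huniq : ∀ (a : O) (s : PowerSeries κ),
      (∀ M, gam I π σ M (PowerSeries.trunc M s) = Ideal.Quotient.mk (I ^ M) a) → Λ a = s := by
    intro a s hs
    ext i
    have h1 := gam_eq_zero I f π hfI hI hreg σ hσ hσf (i + 1)
      (PowerSeries.trunc (i + 1) (Λ a) - PowerSeries.trunc (i + 1) s) (by
        rw [map_sub, hs, hΛ, sub_self]) i (by omega)
    rw [Polynomial.coeff_sub, PowerSeries.coeff_trunc, PowerSeries.coeff_trunc, if_pos (by omega),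
      if_pos (by omega), sub_eq_zero] at h1
    exact h1
  refine ⟨{ toFun := Λ, map_one' := ?_, map_mul' := ?_, map_zero' := ?_, map_add' := ?_ }, ?_, ?_, ?_⟩
  · apply huniq
    intro M
    rcases Nat.eq_zero_or_pos M with rfl | hM
    · haveI : Subsingleton (O ⧸ I ^ 0) := by simp
      exact Subsingleton.elim _ _
    · rw [map_one (Ideal.Quotient.mk (I ^ M)), ← map_one (gam I π σ M)]
      apply gam_congr I π hI σ
      intro i hi
      rw [PowerSeries.coeff_trunc, if_pos hi, PowerSeries.coeff_one, Polynomial.coeff_one]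
  · intro a b
    apply huniq
    intro M
    rw [map_mul (Ideal.Quotient.mk (I ^ M)), ← hΛ M a, ← hΛ M b, ← map_mul (gam I π σ M)]
    apply gam_congr I π hI σ
    intro i hi
    rw [PowerSeries.coeff_trunc, if_pos hi, PowerSeries.coeff_mul, Polynomial.coeff_mul]
    refine Finset.sum_congr rfl fun x hx => ?_
    have := Finset.HasAntidiagonal.mem_antidiagonal.1 hx
    rw [PowerSeries.coeff_trunc, PowerSeries.coeff_trunc, if_pos (by omega), if_pos (by omega)]
  · apply huniq
    intro M
    rw [map_zero, map_zero, map_zero]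
  · intro a b
    apply huniq
    intro M
    rw [map_add (Ideal.Quotient.mk (I ^ M)), ← hΛ M a, ← hΛ M b, ← map_add (gam I π σ M),
      map_add (PowerSeries.trunc M)]
  · apply huniq
    intro M
    rw [← gam_X I π σ M]
    apply gam_congr I π hI σ
    intro i hi
    rw [PowerSeries.coeff_trunc, if_pos hi, PowerSeries.coeff_X, Polynomial.coeff_X]
    simp [eq_comm]
  · intro a
    have h1 := gam_one I f π hfI hI σ hσ hσf 1 le_rfl (PowerSeries.trunc 1 (Λ a)) a (hΛ 1 a).symm
    rw [h1, PowerSeries.coeff_trunc, if_pos (by omega)]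
    simp only [RingHom.coe_mk, MonoidHom.coe_mk, OneHom.coe_mk, PowerSeries.coeff_zero_eq_constantCoeff]
  · intro a c h
    apply huniq
    intro M
    rw [h M, ← gam_C I π σ M]
    apply gam_congr I π hI σ
    intro i hi
    rw [PowerSeries.coeff_trunc, if_pos hi, PowerSeries.coeff_C, Polynomial.coeff_C]

end abstract_part

section
variable {k L : Type*} [Field k] [Field L] [Algebra k L]

theorem exists_emb_O (w : Place k L) [Algebra.FormallySmooth k w.RF] (π : L) (hπ : w.ord π = 1) :
    ∃ Λ : w.O →+* PowerSeries w.RF, (∀ (c : k) (h : w.Reg (algebraMap k L c)),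
        Λ ⟨algebraMap k L c, h⟩ = PowerSeries.C (algebraMap k w.RF c)) ∧
      (∀ h : w.Reg π, Λ ⟨π, h⟩ = PowerSeries.X) ∧
      (∀ a : w.O, PowerSeries.constantCoeff (Λ a) = w.red a) := by
  letI : Algebra k w.O := ((algebraMap k L).codRestrict w.O w.reg_const).toAlgebra
  have hπ0 : π ≠ 0 := by rintro rfl; rw [w.ord_zero] at hπ; omega
  have hπr : w.Reg π := Or.inr (by omega)
  let π' : w.O := ⟨π, hπr⟩
  let f : w.O →ₐ[k] w.RF :=
    { w.resHom with
      commutes' := fun c => by
        change w.resHom ⟨algebraMap k L c, w.reg_const c⟩ = w.red (algebraMap k L c)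
        rw [w.red_of_reg (w.reg_const c)] }
  have hfr : ∀ a : w.O, f a = w.red a := fun a => (w.red_of_reg a.2).symm
  have hf : Function.Surjective f := w.resHom_surjective
  obtain ⟨g, hg⟩ := Algebra.FormallySmooth.exists_kerProj_comp_eq_id f hf
  have hfI : ∀ a : w.O, f a = 0 ↔ a ∈ RingHom.ker f := fun a => RingHom.mem_ker.symm
  have hI : RingHom.ker f = Ideal.span {π'} := by
    ext a
    rw [← hfI, hfr, w.red_eq_zero_iff a.2, Ideal.mem_span_singleton]
    constructor
    · intro h
      by_cases h0 : a = 0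
      · rw [h0]; exact dvd_zero _
      have h0' : (a : L) ≠ 0 := fun h' => h0 (Subtype.ext h')
      have h1 := h.resolve_left h0'
      have h2 : w.Reg ((a : L) / π) := Or.inr (by rw [w.ord_div h0' hπ0]; omega)
      refine ⟨⟨(a : L) / π, h2⟩, Subtype.ext ?_⟩
      change (a : L) = π * ((a : L) / π)
      field_simp
    · rintro ⟨b, rfl⟩
      by_cases h0 : (b : L) = 0
      · left
        change π * (b : L) = 0
        rw [h0, mul_zero]
      · right
        change 0 < w.ord (π * (b : L))
        rw [w.ord_mul hπ0 h0, hπ]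
        have := (w.reg_iff h0).1 b.2
        omega
  have hpow : ∀ (M : ℕ) (a : w.O), a ∈ RingHom.ker f ^ M ↔ (a : L) = 0 ∨ (M : ℤ) ≤ w.ord (a : L) := by
    intro M a
    rw [hI, Ideal.span_singleton_pow, Ideal.mem_span_singleton]
    constructor
    · rintro ⟨b, rfl⟩
      by_cases h0 : (b : L) = 0
      · left
        change (π' ^ M : w.O) * (b : L) = 0
        rw [h0, mul_zero]
      · right
        change (M : ℤ) ≤ w.ord (((π' ^ M : w.O) : L) * (b : L))
        have e : ((π' ^ M : w.O) : L) = π ^ M := rfl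
        rw [e, w.ord_mul (pow_ne_zero _ hπ0) h0, w.ord_pow, hπ]
        have := (w.reg_iff h0).1 b.2
        omega
    · intro h
      by_cases h0 : (a : L) = 0
      · refine ⟨0, ?_⟩
        rw [mul_zero]; exact Subtype.ext h0
      have h1 := h.resolve_left h0
      have h2 : w.Reg ((a : L) / π ^ M) := Or.inr (by
        rw [w.ord_div h0 (pow_ne_zero _ hπ0), w.ord_pow, hπ]; omega)
      refine ⟨⟨(a : L) / π ^ M, h2⟩, Subtype.ext ?_⟩
      change (a : L) = ((π' ^ M : w.O) : L) * ((a : L) / π ^ M)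
      have e : ((π' ^ M : w.O) : L) = π ^ M := rfl
      rw [e]
      field_simp
  have hreg : ∀ (n : ℕ) (b : w.O) (M : ℕ), n < M → π' ^ n * b ∈ RingHom.ker f ^ M → b ∈ RingHom.ker f := by
    intro n b M hnM hb
    rw [hpow] at hb
    rw [← hfI, hfr, w.red_eq_zero_iff b.2]
    by_cases h0 : (b : L) = 0
    · exact Or.inl h0
    right
    have e : ((π' ^ n * b : w.O) : L) = π ^ n * (b : L) := rfl
    rw [e] at hb
    have h1 := hb.resolve_left (mul_ne_zero (pow_ne_zero _ hπ0) h0)
    rw [w.ord_mul (pow_ne_zero _ hπ0) h0, w.ord_pow, hπ] at h1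
    omega
  let σ : ∀ n : ℕ, w.RF →+* w.O ⧸ (RingHom.ker f) ^ n := fun n =>
    (AdicCompletion.evalₐ (RingHom.ker f) n : AdicCompletion (RingHom.ker f) w.O →+* _).comp (g : w.RF →+* _)
  have hσ : ∀ (n m : ℕ), m ≤ n → ∀ (c : w.RF) (b : w.O), Ideal.Quotient.mk (RingHom.ker f ^ n) b = σ n c →
      Ideal.Quotient.mk (RingHom.ker f ^ m) b = σ m c := by
    intro n m hmn c b hb
    obtain ⟨a, ha⟩ := AdicCompletion.mk_surjective (RingHom.ker f) w.O (g c)
    have h1 : ∀ n, σ n c = Ideal.Quotient.mk (RingHom.ker f ^ n) (a.val n) := by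
      intro n
      change AdicCompletion.evalₐ (RingHom.ker f) n (g c) = _
      rw [← ha]
      exact AdicCompletion.evalₐ_mk (RingHom.ker f) n a
    rw [h1] at hb ⊢
    rw [← AdicCompletion.Ideal.mk_eq_mk (RingHom.ker f) hmn a]
    rw [Ideal.Quotient.eq] at hb ⊢
    exact Ideal.pow_le_pow_right hmn hb
  have hσf : ∀ (c : w.RF) (b : w.O), Ideal.Quotient.mk (RingHom.ker f ^ 1) b = σ 1 c → f b = c := by
    intro c b hb
    have h1 := congrArg (fun φ => φ c) hg
    have h2 : AdicCompletion.kerProj hf (g c) = c := h1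
    have h3 : AdicCompletion.kerProj hf (g c) = f b := by
      have h4 : AdicCompletion.evalOneₐ (RingHom.ker f) (g c) = Ideal.Quotient.mk (RingHom.ker f) b := by
        rw [← AdicCompletion.factorₐ_evalₐ_one]
        change Ideal.Quotient.factor _ (σ 1 c) = _
        rw [← hb]
        rfl
      change (Ideal.quotientKerAlgEquivOfSurjective hf) (AdicCompletion.evalOneₐ (RingHom.ker f) (g c)) = f b
      rw [h4]
      rfl
    rw [← h3, h2]
  obtain ⟨Λ, h1, h2, h3⟩ := exists_ps (RingHom.ker f) (f : w.O →+* w.RF) π' hfI hI hreg σ hσ hσf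
  refine ⟨Λ, ?_, fun _ => h1, fun a => by rw [h2]; exact hfr a⟩
  intro c h
  apply h3
  intro n
  change _ = AdicCompletion.evalₐ (RingHom.ker f) n (g (algebraMap k w.RF c))
  rw [g.commutes]
  have h5 : algebraMap k (AdicCompletion (RingHom.ker f) w.O) c =
      AdicCompletion.of (RingHom.ker f) w.O (algebraMap k w.O c) := rfl
  rw [h5, AdicCompletion.evalₐ_of]
  rfl

end

end FF
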