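import Pool.Agent.Helper386.FF.Over
import Pool.Agent.SF.Model

/-! The Gauss place on `k((y))(u)`. -/

set_option autoImplicit false
set_option linter.all false
set_option linter.overlappingInstances false

open Module FF

attribute [-instance] HahnSeries.powerSeriesAlgebra

namespace FF

/-- The order place of Laurent series. -/
noncomputable def lsPlace (k κ : Type*) [Field k] [Field κ] [Algebra k κ] : Place k (LaurentSeries κ) where
  ord f := f.order
  ord_zero := HahnSeries.order_zero
  ord_mul := fun hf hg => HahnSeries.order_mul hf hg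
  ord_add := fun _ _ h => HahnSeries.min_order_le_order_add h
  ord_const := by
    intro c hc
    rw [HahnSeries.algebraMap_apply]
    exact HahnSeries.order_C
  surj := ⟨HahnSeries.single 1 1, by simp, by simp⟩

section comap
variable {k K0 K : Type*} [Field k] [Field K0] [Field K] [Algebra k K0] [Algebra k K]

/-- Restriction of a place along an embedding containing a uniformiser. -/
noncomputable def Place.comap (P : Place k K) (φ : K0 →+* K) (hφ : ∀ c : k, φ (algebraMap k K0 c) = algebraMap k K c)
    (ht : ∃ t : K0, t ≠ 0 ∧ P.ord (φ t) = 1) : Place k K0 where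
  ord f := P.ord (φ f)
  ord_zero := by rw [map_zero, P.ord_zero]
  ord_mul := by
    intro f g hf hg
    rw [map_mul, P.ord_mul (by simpa using hf) (by simpa using hg)]
  ord_add := by
    intro f g hf hg hfg
    rw [map_add]
    exact P.ord_add (by simpa using hf) (by simpa using hg)
      (by rw [← map_add]; exact (map_ne_zero_iff _ φ.injective).2 hfg)
  ord_const := by intro c hc; rw [hφ, P.ord_const hc]
  surj := ht

end comap

section gauss
variable {k : Type} [Field k]

abbrev OO (k : Type) [Field k] := PowerSeries k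
abbrev RR (k : Type) [Field k] := LaurentSeries k

section ev
variable {K0 : Type} [Field K0] [Algebra (RR k) K0]

variable (k) in
/-- power series as elements of an overfield of Laurent series -/
noncomputable def ioO (K0 : Type) [Field K0] [Algebra (RR k) K0] : OO k →+* K0 :=
  (algebraMap (RR k) K0).comp (algebraMap (OO k) (RR k))

/-- evaluation of a polynomial over power series -/
noncomputable def evO (u : K0) : Polynomial (OO k) →+* K0 := Polynomial.eval₂RingHom (ioO k K0) u

theorem ioO_X : ioO k K0 PowerSeries.X = algebraMap (RR k) K0 (SF.yv k) := by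
  unfold ioO SF.yv
  rw [RingHom.comp_apply]
  congr 1
  exact PowerSeries.coe_X

theorem yv_ne_zero : (SF.yv k) ≠ 0 := by
  unfold SF.yv; simp

theorem exists_primitive (b : Polynomial (OO k)) (hb : b ≠ 0) :
    ∃ (m : ℕ) (b' : Polynomial (OO k)), b = (Polynomial.C PowerSeries.X) ^ m * b' ∧
      b'.map (PowerSeries.constantCoeff (R := k)) ≠ 0 := by
  have h1 : FiniteMultiplicity (Polynomial.C (PowerSeries.X : OO k)) b := by
    apply FiniteMultiplicity.of_not_isUnit
    · rw [Polynomial.isUnit_C]
      exact PowerSeries.X_irreducible.not_isUnit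
    · exact hb
  obtain ⟨c, hc, hd⟩ := h1.exists_eq_pow_mul_and_not_dvd
  refine ⟨_, c, hc, ?_⟩
  intro h0
  apply hd
  rw [Polynomial.C_dvd_iff_dvd_coeff]
  intro i
  rw [PowerSeries.X_dvd_iff]
  have := congrArg (fun p => Polynomial.coeff p i) h0
  simpa [Polynomial.coeff_map] using this

/-- the map to Laurent series over rational functions -/
noncomputable def rho (k : Type) [Field k] : Polynomial (OO k) →+* PowerSeries (RatFunc k) :=
  Polynomial.eval₂RingHom (PowerSeries.map (algebraMap k (RatFunc k))) (PowerSeries.C RatFunc.X)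

theorem rho_const (b : Polynomial (OO k)) :
    PowerSeries.constantCoeff (rho k b) = algebraMap (Polynomial k) (RatFunc k) (b.map PowerSeries.constantCoeff) := by
  have h : (PowerSeries.constantCoeff (R := RatFunc k)).comp (rho k) =
      (algebraMap (Polynomial k) (RatFunc k)).comp (Polynomial.mapRingHom (PowerSeries.constantCoeff (R := k))) := by
    ext a
    · simp only [rho, RingHom.comp_apply, Polynomial.coe_eval₂RingHom, Polynomial.eval₂_C,
        Polynomial.coe_mapRingHom, Polynomial.map_C]
      rw [← Polynomial.algebraMap_eq, ← IsScalarTower.algebraMap_apply k (Polynomial k) (RatFunc k)]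
      simp only [← PowerSeries.coeff_zero_eq_constantCoeff_apply, PowerSeries.coeff_map]
    · simp [rho]
  exact congrArg (fun f => f b) h

theorem rho_C_X : rho k (Polynomial.C PowerSeries.X) = PowerSeries.X := by
  simp [rho]

theorem rho_ne_zero {b : Polynomial (OO k)} (hb : b ≠ 0) : rho k b ≠ 0 := by
  obtain ⟨m, b', rfl, hb'⟩ := exists_primitive b hb
  rw [map_mul, map_pow, rho_C_X]
  apply mul_ne_zero (pow_ne_zero _ PowerSeries.X_ne_zero)
  intro h
  have := rho_const b'
  rw [h, map_zero] at this
  apply hb'
  apply (IsFractionRing.injective (Polynomial k) (RatFunc k))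
  rw [← this, map_zero]

variable [Algebra k K0] [IsScalarTower k (RR k) K0]

theorem evO_eq (u : K0) (b : Polynomial (OO k)) :
    evO u b = Polynomial.aeval u (b.map (algebraMap (OO k) (RR k))) := by
  unfold evO ioO
  rw [Polynomial.aeval_def, Polynomial.eval₂_map]
  rfl

theorem evO_injective {u : K0} (hu : Transcendental (RR k) u) {b : Polynomial (OO k)} (hb : b ≠ 0) :
    evO u b ≠ 0 := by
  rw [evO_eq]
  intro h
  have h1 := transcendental_iff.1 hu _ h
  have h2 := (Polynomial.map_injective _ (IsFractionRing.injective (OO k) (RR k)))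
  exact hb (h2 (by rw [h1, Polynomial.map_zero]))

theorem exists_evO_div (u : K0) (hu : Transcendental (RR k) u) (htop : IntermediateField.adjoin (RR k) {u} = ⊤)
    (f : K0) : ∃ b c : Polynomial (OO k), c ≠ 0 ∧ f = evO u b / evO u c := by
  have hf : f ∈ IntermediateField.adjoin (RR k) {u} := by rw [htop]; trivial
  rw [IntermediateField.mem_adjoin_simple_iff] at hf
  obtain ⟨r, s, rfl⟩ := hf
  by_cases hs : s = 0
  · subst hs
    refine ⟨0, 1, one_ne_zero, ?_⟩
    simp
  obtain ⟨b1, hb1, h1⟩ := IsLocalization.integerNormalization_spec (nonZeroDivisors (OO k)) r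
  obtain ⟨b2, hb2, h2⟩ := IsLocalization.integerNormalization_spec (nonZeroDivisors (OO k)) s
  set r' := IsLocalization.integerNormalization (nonZeroDivisors (OO k)) r
  set s' := IsLocalization.integerNormalization (nonZeroDivisors (OO k)) s
  have hb1' : b1 ≠ 0 := nonZeroDivisors.ne_zero hb1
  have hb2' : b2 ≠ 0 := nonZeroDivisors.ne_zero hb2
  have e1 : evO u r' = ioO k K0 b1 * Polynomial.aeval u r := by
    rw [evO_eq, h1, Algebra.smul_def]
    simp [ioO, Polynomial.algebraMap_apply]
  have e2 : evO u s' = ioO k K0 b2 * Polynomial.aeval u s := by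
    rw [evO_eq, h2, Algebra.smul_def]
    simp [ioO, Polynomial.algebraMap_apply]
  have hinj : Function.Injective (ioO k K0) :=
    (algebraMap (RR k) K0).injective.comp (IsFractionRing.injective (OO k) (RR k))
  have hi1 : ioO k K0 b1 ≠ 0 := (map_ne_zero_iff _ hinj).2 hb1'
  have hi2 : ioO k K0 b2 ≠ 0 := (map_ne_zero_iff _ hinj).2 hb2'
  have hs0 : Polynomial.aeval u s ≠ 0 := fun h => hs (transcendental_iff.1 hu _ h)
  have hev : ∀ b : OO k, evO u (Polynomial.C b) = ioO k K0 b := by
    intro b; simp [evO]
  refine ⟨Polynomial.C b2 * r', Polynomial.C b1 * s', ?_, ?_⟩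
  · apply mul_ne_zero (by simpa using hb1')
    intro h0
    rw [h0, map_zero] at e2
    exact mul_ne_zero hi2 hs0 e2.symm
  · rw [map_mul, map_mul, e1, e2, hev, hev]
    field_simp

theorem exists_decomp (u : K0) (hu : Transcendental (RR k) u) (htop : IntermediateField.adjoin (RR k) {u} = ⊤)
    (f : K0) (hf : f ≠ 0) : ∃ (n : ℤ) (b c : Polynomial (OO k)),
      b.map (PowerSeries.constantCoeff (R := k)) ≠ 0 ∧ c.map (PowerSeries.constantCoeff (R := k)) ≠ 0 ∧
      f = algebraMap (RR k) K0 (SF.yv k) ^ n * (evO u b / evO u c) := by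
  obtain ⟨b, c, hc, rfl⟩ := exists_evO_div u hu htop f
  have hb : b ≠ 0 := by
    rintro rfl; rw [map_zero, zero_div] at hf; exact hf rfl
  obtain ⟨m, b', rfl, hb'⟩ := exists_primitive b hb
  obtain ⟨l, c', rfl, hc'⟩ := exists_primitive c hc
  refine ⟨(m : ℤ) - l, b', c', hb', hc', ?_⟩
  have hy : algebraMap (RR k) K0 (SF.yv k) ≠ 0 := by simpa using yv_ne_zero (k := k)
  have e : evO u (Polynomial.C (PowerSeries.X : OO k)) = algebraMap (RR k) K0 (SF.yv k) := by
    rw [← ioO_X]; simp [evO]
  rw [map_mul, map_pow, map_mul, map_pow, e, zpow_sub₀ hy, zpow_natCast, zpow_natCast]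
  field_simp

theorem exists_gauss (u : K0) (hu : Transcendental (RR k) u) (htop : IntermediateField.adjoin (RR k) {u} = ⊤) :
    ∃ G : Place k K0, G.ord (algebraMap (RR k) K0 (SF.yv k)) = 1 ∧
      ∀ b : Polynomial (OO k), b.map (PowerSeries.constantCoeff (R := k)) ≠ 0 →
        evO u b ≠ 0 ∧ G.ord (evO u b) = 0 := by
  letI : Algebra (Polynomial (OO k)) K0 := (evO u).toAlgebra
  have hal : ∀ b, algebraMap (Polynomial (OO k)) K0 b = evO u b := fun b => rfl
  have hfs : FaithfulSMul (Polynomial (OO k)) K0 := by
    rw [faithfulSMul_iff_algebraMap_injective, injective_iff_map_eq_zero]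
    intro b hb
    by_contra hb0
    exact evO_injective hu hb0 hb
  have hfr : IsFractionRing (Polynomial (OO k)) K0 := by
    apply IsFractionRing.of_field
    intro f
    obtain ⟨b, c, _, h⟩ := exists_evO_div u hu htop f
    exact ⟨b, c, h⟩
  let ρ : Polynomial (OO k) →+* LaurentSeries (RatFunc k) :=
    (algebraMap (PowerSeries (RatFunc k)) (LaurentSeries (RatFunc k))).comp (rho k)
  have hρ : Function.Injective ρ := by
    rw [injective_iff_map_eq_zero]
    intro b hb
    by_contra hb0
    have := rho_ne_zero hb0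
    apply this
    apply IsFractionRing.injective (PowerSeries (RatFunc k)) (LaurentSeries (RatFunc k))
    rw [map_zero]; exact hb
  let φ : K0 →+* LaurentSeries (RatFunc k) := IsFractionRing.lift hρ
  have hφ : ∀ b, φ (evO u b) = ρ b := fun b => IsFractionRing.lift_algebraMap hρ b
  have hy1 : evO u (Polynomial.C (PowerSeries.X : OO k)) = algebraMap (RR k) K0 (SF.yv k) := by
    rw [← ioO_X]; simp [evO]
  have hφy : φ (algebraMap (RR k) K0 (SF.yv k)) = HahnSeries.single 1 1 := by
    rw [← hy1, hφ]
    simp only [ρ, RingHom.comp_apply]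
    rw [rho_C_X]
    exact PowerSeries.coe_X
  have hord : (lsPlace k (RatFunc k)).ord (φ (algebraMap (RR k) K0 (SF.yv k))) = 1 := by
    rw [hφy]; simp [lsPlace]
  have hφk : ∀ c : k, φ (algebraMap k K0 c) = algebraMap k (LaurentSeries (RatFunc k)) c := by
    intro c
    have h1 : evO u (Polynomial.C (PowerSeries.C c)) = algebraMap k K0 c := by
      rw [IsScalarTower.algebraMap_apply k (RR k) K0]
      simp only [evO, Polynomial.coe_eval₂RingHom, Polynomial.eval₂_C, ioO, RingHom.comp_apply]
      congr 1
      rw [HahnSeries.algebraMap_apply]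
      exact PowerSeries.coe_C c
    rw [← h1, hφ]
    simp only [ρ, RingHom.comp_apply, rho, Polynomial.coe_eval₂RingHom, Polynomial.eval₂_C, PowerSeries.map_C]
    rw [HahnSeries.algebraMap_apply]
    exact PowerSeries.coe_C _
  have hy0 : algebraMap (RR k) K0 (SF.yv k) ≠ 0 := by simpa using yv_ne_zero (k := k)
  refine ⟨(lsPlace k (RatFunc k)).comap φ hφk ⟨_, hy0, hord⟩, hord, ?_⟩
  intro b hb
  have hb0 : b ≠ 0 := by rintro rfl; exact hb (by simp)
  refine ⟨evO_injective hu hb0, ?_⟩
  change (φ (evO u b)).order = 0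
  rw [hφ]
  have h1 := rho_const b
  have h2 : PowerSeries.constantCoeff (rho k b) ≠ 0 := by
    rw [h1]
    intro h
    apply hb
    apply (IsFractionRing.injective (Polynomial k) (RatFunc k))
    rw [h, map_zero]
  have h3 : (ρ b).coeff 0 ≠ 0 := by
    have := PowerSeries.coeff_coe (rho k b) 0
    simp only [ρ, RingHom.comp_apply]
    change ((rho k b : PowerSeries (RatFunc k)) : LaurentSeries (RatFunc k)).coeff 0 ≠ 0
    rw [this]
    simpa using h2
  have h4 : ∀ n : ℤ, n < 0 → (ρ b).coeff n = 0 := by
    intro n hn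
    change ((rho k b : PowerSeries (RatFunc k)) : LaurentSeries (RatFunc k)).coeff n = 0
    rw [PowerSeries.coeff_coe, if_pos hn]
  apply le_antisymm
  · exact HahnSeries.order_le_of_coeff_ne_zero h3
  · by_contra hc
    push Not at hc
    have h5 := h4 _ hc
    exact (HahnSeries.coeff_order_eq_zero.not.2 (fun h => h3 (by rw [h]; rfl))) h5

end ev
end gauss

end FF
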