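import Pool.Agent.Helper386.FF.Loc2

/-! Divisibility by three from a twisted automorphism. -/

set_option autoImplicit false
set_option linter.all false
set_option linter.overlappingInstances false

open Module FF

namespace FF

theorem three_dvd_finrank {k V : Type*} [Field k] [AddCommGroup V] [Module k V] [FiniteDimensional k V]
    (Ψ : V →ₗ[k] V) (c : k) (hc : ¬ ∃ b : k, b ^ 3 = c) (h : ∀ v, Ψ (Ψ (Ψ v)) = c • v) :
    3 ∣ finrank k V := by
  let p : Polynomial k := Polynomial.X ^ 3 - Polynomial.C c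
  have hirr : Irreducible p := X_pow_sub_C_irreducible_of_prime Nat.prime_three (fun b hb => hc ⟨b, hb⟩)
  haveI : Fact (Irreducible p) := ⟨hirr⟩
  have hp0 : p ≠ 0 := hirr.ne_zero
  have hp : ∀ q ∈ Ideal.span {p}, (Polynomial.aeval Ψ).toRingHom q = 0 := by
    intro q hq
    rw [Ideal.mem_span_singleton] at hq
    obtain ⟨q', rfl⟩ := hq
    have h0 : (Polynomial.aeval Ψ) p = 0 := by
      ext v
      simp only [p, map_sub, map_pow, Polynomial.aeval_X, Polynomial.aeval_C, LinearMap.sub_apply,
        LinearMap.zero_apply, Module.algebraMap_end_apply]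
      rw [sub_eq_zero, ← h v]
      rfl
    change (Polynomial.aeval Ψ) (p * q') = 0
    rw [map_mul, h0, zero_mul]
  let φ : AdjoinRoot p →+* Module.End k V := Ideal.Quotient.lift (Ideal.span {p}) (Polynomial.aeval Ψ).toRingHom hp
  have hφ : ∀ a : k, φ (algebraMap k (AdjoinRoot p) a) = algebraMap k (Module.End k V) a := by
    intro a
    change (Polynomial.aeval Ψ) (Polynomial.C a) = _
    rw [Polynomial.aeval_C]
  letI : Module (AdjoinRoot p) V := Module.compHom V φ
  haveI : IsScalarTower k (AdjoinRoot p) V := by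
    constructor
    intro a b v
    change φ (a • b) v = a • (φ b v)
    rw [Algebra.smul_def, map_mul, hφ]; rfl
  haveI : FiniteDimensional k (AdjoinRoot p) := (AdjoinRoot.powerBasis hp0).finite
  have h1 : finrank k (AdjoinRoot p) = 3 := by
    rw [(AdjoinRoot.powerBasis hp0).finrank, AdjoinRoot.powerBasis_dim hp0]
    exact Polynomial.natDegree_X_pow_sub_C
  have h2 := Module.finrank_mul_finrank k (AdjoinRoot p) V
  rw [h1] at h2
  exact ⟨_, h2.symm⟩

section
variable {k κ : Type*} [Field k] [Field κ] [Algebra k κ] [CharZero k] [IsFF k κ]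

theorem three_dvd_ell (s : κ ≃ₐ[k] κ) (hs : ∀ f, s (s (s f)) = f) (r : κ) (c : k)
    (hc : ¬ ∃ b : k, b ^ 3 = c) (hr : r * s r * s (s r) = algebraMap k κ c) (D : Place k κ →₀ ℤ)
    (hD : ∀ P : Place k κ, P.ord r = D (P.comp s) - D P) : (3 : ℤ) ∣ ell D := by
  have hc0 : c ≠ 0 := by rintro rfl; exact hc ⟨0, by norm_num⟩
  have hr0 : r ≠ 0 := by
    rintro rfl
    rw [zero_mul, zero_mul] at hr
    exact hc0 (by simpa using hr.symm)
  let Ψ : LL D →ₗ[k] LL D :=
    { toFun := fun f => ⟨r * s f.1, by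
        by_cases hf0 : f.1 = 0
        · left; rw [hf0, map_zero, mul_zero]
        · right
          intro P
          have h1 := (f.2.resolve_left hf0) (P.comp s)
          rw [Place.comp_ord] at h1
          rw [P.ord_mul hr0 (by simpa using hf0), hD P]
          omega⟩
      map_add' := fun f g => Subtype.ext (by
        change r * s (f.1 + g.1) = r * s f.1 + r * s g.1
        rw [map_add, mul_add])
      map_smul' := fun a f => Subtype.ext (by
        change r * s (a • f.1) = a • (r * s f.1)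
        rw [map_smul, mul_smul_comm]) }
  have h := three_dvd_finrank Ψ c hc (fun v => Subtype.ext (by
    change r * s (r * s (r * s v.1)) = c • v.1
    rw [map_mul, map_mul, map_mul, hs, Algebra.smul_def, ← hr]
    ring))
  unfold ell
  exact_mod_cast h

theorem three_dvd_ddeg (s : κ ≃ₐ[k] κ) (hs : ∀ f, s (s (s f)) = f) (ρ : κ) (x : k)
    (hx : ¬ ∃ b : k, b ^ 3 = x) (hρ : ρ * s ρ * s (s ρ) = algebraMap k κ x) (D : Place k κ →₀ ℤ)
    (hD : ∀ P : Place k κ, P.ord ρ = D (P.comp s) - D P) : (3 : ℤ) ∣ ddeg D := by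
  have hx0 : x ≠ 0 := by rintro rfl; exact hx ⟨0, by norm_num⟩
  have hx2 : ¬ ∃ b : k, b ^ 3 = x ^ 2 := by
    rintro ⟨b, hb⟩
    apply hx
    have hb0 : b ≠ 0 := by
      rintro rfl
      have : x ^ 2 = 0 := by rw [← hb]; norm_num
      exact hx0 (by simpa using this)
    refine ⟨x / b, ?_⟩
    rw [div_pow, hb]
    field_simp
  obtain ⟨v, hv⟩ := IsFF.exists_transcendental (k := k) (K := κ)
  let H : Place k κ →₀ ℤ := polar v + polar (s v) + polar (s (s v))
  have hHpos : 0 < ddeg H := by
    have h1 := ddeg_polar_pos hv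
    have h2 := ddeg_nonneg (polar_nonneg (k := k) (s v))
    have h3 := ddeg_nonneg (polar_nonneg (k := k) (s (s v)))
    simp only [H, ddeg_add]
    omega
  have hH : ∀ P : Place k κ, H (P.comp s) = H P := by
    intro P
    simp only [H, Finsupp.add_apply, polar_apply, Place.comp_ord, hs]
    ring
  obtain ⟨γ, N, -, hRR⟩ := riemann k κ
  let n : ℕ := (N - ddeg D).toNat + (N - 2 * ddeg D).toNat
  have hn : (n : ℤ) ≤ n * ddeg H := by
    have : (n : ℤ) * 1 ≤ n * ddeg H := mul_le_mul_of_nonneg_left (by omega) (by positivity)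
    omega
  have h1 : ell (D + n • H) = ddeg (D + n • H) - γ := by
    apply hRR
    rw [ddeg_add, ddeg_nsmul]
    omega
  have h2 : ell (D + D + n • H) = ddeg (D + D + n • H) - γ := by
    apply hRR
    rw [ddeg_add, ddeg_nsmul, ddeg_add]
    omega
  have hρ0 : ρ ≠ 0 := by
    rintro rfl
    rw [zero_mul, zero_mul] at hρ
    exact hx0 (by simpa using hρ.symm)
  have h3 := three_dvd_ell s hs ρ x hx hρ (D + n • H) (by
    intro P
    rw [hD P]
    simp only [Finsupp.add_apply, Finsupp.smul_apply, hH]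
    ring)
  have h4 := three_dvd_ell s hs (ρ ^ 2) (x ^ 2) hx2 (by
    rw [map_pow, map_pow, map_pow, ← hρ]; ring) (D + D + n • H) (by
    intro P
    rw [P.ord_pow, hD P]
    simp only [Finsupp.add_apply, Finsupp.smul_apply, hH]
    push_cast
    ring)
  rw [h1, ddeg_add] at h3
  rw [h2, ddeg_add, ddeg_add] at h4
  have h5 := dvd_sub h4 h3
  have h6 : ddeg D + ddeg D + ddeg (n • H) - γ - (ddeg D + ddeg (n • H) - γ) = ddeg D := by ring
  rwa [h6] at h5

end
end FF
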