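import Pool.Agent.Helper386.FF.Loc3

/-! Transport of places and residue fields along isomorphisms. -/

set_option autoImplicit false
set_option linter.all false
set_option linter.overlappingInstances false

open Module FF

namespace FF

section
variable {k κ κ' : Type*} [Field k] [Field κ] [Field κ'] [Algebra k κ] [Algebra k κ']

/-- pull back of a place along an isomorphism -/
noncomputable def Place.pull (P : Place k κ) (ι : κ' ≃ₐ[k] κ) : Place k κ' where
  ord f := P.ord (ι f)
  ord_zero := by rw [map_zero, P.ord_zero]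
  ord_mul := by
    intro f g hf hg
    rw [map_mul, P.ord_mul (by simpa using hf) (by simpa using hg)]
  ord_add := by
    intro f g hf hg hfg
    rw [map_add]
    exact P.ord_add (by simpa using hf) (by simpa using hg)
      (by rw [← map_add]; exact (map_ne_zero_iff _ ι.injective).2 hfg)
  ord_const := by intro c hc; rw [AlgEquiv.commutes, P.ord_const hc]
  surj := by
    obtain ⟨t, h0, ht⟩ := P.surj
    exact ⟨ι.symm t, by simpa using h0, by simpa using ht⟩

theorem Place.pull_ord (P : Place k κ) (ι : κ' ≃ₐ[k] κ) (f : κ') : (P.pull ι).ord f = P.ord (ι f) := rfl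

theorem Place.pull_eq_comp (P : Place k κ) (s : κ ≃ₐ[k] κ) : P.pull s = P.comp s := rfl

/-- isomorphism of residue fields -/
noncomputable def resIso (w' : Place k κ') (w : Place k κ) (ι : κ' ≃ₐ[k] κ)
    (h : ∀ f, w.ord (ι f) = w'.ord f) : w'.RF ≃ₐ[k] w.RF :=
  have hreg : ∀ f, w.Reg (ι f) ↔ w'.Reg f := by
    intro f; unfold Place.Reg; rw [h]; simp
  let e : w'.O ≃+* w.O :=
    { toFun := fun f => ⟨ι f.1, (hreg f.1).2 f.2⟩
      invFun := fun f => ⟨ι.symm f.1, (hreg _).1 (by rw [AlgEquiv.apply_symm_apply]; exact f.2)⟩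
      left_inv := fun f => Subtype.ext (ι.symm_apply_apply _)
      right_inv := fun f => Subtype.ext (ι.apply_symm_apply _)
      map_mul' := fun f g => Subtype.ext (map_mul ι _ _)
      map_add' := fun f g => Subtype.ext (map_add ι _ _) }
  { IsLocalRing.ResidueField.mapEquiv e with
    commutes' := fun c => by
      change IsLocalRing.ResidueField.map (e : w'.O →+* w.O) (w'.red (algebraMap k κ' c)) = w.red (algebraMap k κ c)
      rw [w'.red_of_reg (w'.reg_const c), w.red_of_reg (w.reg_const c)]
      change IsLocalRing.ResidueField.map _ (IsLocalRing.residue _ _) = IsLocalRing.residue _ _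
      rw [IsLocalRing.ResidueField.map_residue]
      congr 1
      apply Subtype.ext
      exact AlgEquiv.commutes ι c }

theorem resIso_red (w' : Place k κ') (w : Place k κ) (ι : κ' ≃ₐ[k] κ)
    (h : ∀ f, w.ord (ι f) = w'.ord f) {f : κ'} (hf : w'.Reg f) : resIso w' w ι h (w'.red f) = w.red (ι f) := by
  have hreg : w.Reg (ι f) := by
    unfold Place.Reg at hf ⊢
    rw [h]; simpa using hf
  rw [w'.red_of_reg hf, w.red_of_reg hreg]
  rfl

theorem Place.deg_pull (P : Place k κ) (ι : κ' ≃ₐ[k] κ) : (P.pull ι).deg = P.deg :=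
  (resIso (P.pull ι) P ι (fun _ => rfl)).toLinearEquiv.finrank_eq

/-- places correspond -/
noncomputable def pullEquiv (ι : κ' ≃ₐ[k] κ) : Place k κ ≃ Place k κ' where
  toFun P := P.pull ι
  invFun P := P.pull ι.symm
  left_inv P := by
    ext f
    rw [Place.pull_ord, Place.pull_ord, ι.apply_symm_apply]
  right_inv P := by
    ext f
    rw [Place.pull_ord, Place.pull_ord, ι.symm_apply_apply]

theorem IsFF.transport [h : IsFF k κ'] (ι : κ' ≃ₐ[k] κ) : IsFF k κ where
  ess := by
    have := h.ess
    exact Algebra.EssFiniteType.of_surjective ι.toAlgHom ι.surjective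
  trdeg := by
    obtain ⟨f, hf⟩ := IsFF.exists_transcendental (k := k) (K := κ')
    have h1 := (IsFF.basis hf)
    have h2 : IsTranscendenceBasis k (ι ∘ (fun _ : Unit => f)) := by
      exact ι.isTranscendenceBasis h1
    have := h2.lift_cardinalMk_eq_trdeg
    simpa using this.symm

theorem isMin_pull' (P : Place k κ) (ι : κ' ≃ₐ[k] κ) (V : Fin 3 → κ') (n : ℤ) :
    IsMin (P.pull ι) V n ↔ IsMin P (fun j => ι (V j)) n := by
  unfold IsMin Place.Ge
  simp only [Place.pull_ord, map_eq_zero, ne_eq]

section div
variable [CharZero k] [IsFF k κ] [IsFF k κ']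

theorem ddeg_pull (ι : κ' ≃ₐ[k] κ) (D : Place k κ →₀ ℤ) (D' : Place k κ' →₀ ℤ)
    (h : ∀ P, D' (P.pull ι) = D P) : ddeg D' = ddeg D := by
  have h1 : D' = Finsupp.equivMapDomain (pullEquiv ι) D := by
    ext P
    rw [Finsupp.equivMapDomain_apply, ← h]
    congr 1
    exact ((pullEquiv ι).apply_symm_apply P).symm
  unfold ddeg
  rw [h1, Finsupp.sum_equivMapDomain]
  refine Finsupp.sum_congr fun P _ => ?_
  have : ((pullEquiv ι) P).deg = P.deg := P.deg_pull ι
  rw [this]

theorem isMin_pull (P : Place k κ) (ι : κ' ≃ₐ[k] κ) (V : Fin 3 → κ') (n : ℤ) :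
    IsMin (P.pull ι) V n ↔ IsMin P (fun j => ι (V j)) n := by
  unfold IsMin Place.Ge
  simp only [Place.pull_ord, map_eq_zero, ne_eq]

theorem ddeg_md_pull (ι : κ' ≃ₐ[k] κ) {V : Fin 3 → κ'} (hV : ∃ j, V j ≠ 0) :
    ddeg (md k V) = ddeg (md k (fun j => ι (V j))) := by
  apply ddeg_pull ι
  intro P
  have h1 := md_spec hV (P.pull ι)
  rw [isMin_pull] at h1
  have h2 := md_eq h1
  omega

end div
end

section
variable {k : Type*} {K K' : Type*} [Field k] [Field K] [Field K'] [Algebra k K] [Algebra k K'] [Algebra K K']
  [IsScalarTower k K K']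

/-- subfields of function fields over which the field is algebraic are function fields -/
theorem IsFF.of_isAlgebraic [h : IsFF k K'] [Algebra.IsAlgebraic K K'] : IsFF k K := by
  obtain ⟨v, hv⟩ : ∃ v : K, Transcendental k v := by
    by_contra hc
    push Not at hc
    have h1 : Algebra.IsAlgebraic k K := ⟨fun x => by
      have := hc x
      simpa [Transcendental] using this⟩
    have h2 : Algebra.IsAlgebraic k K' := Algebra.IsAlgebraic.trans k K K'
    obtain ⟨f, hf⟩ := IsFF.exists_transcendental (k := k) (K := K')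
    exact hf (h2.isAlgebraic f)
  have hv' : Transcendental k (algebraMap K K' v) := by
    intro h'
    apply hv
    exact (isAlgebraic_algebraMap_iff (algebraMap K K').injective).1 h'
  have hfin := IsFF.finite hv'
  -- K is finite over k(v)
  have hfin2 : FiniteDimensional (IntermediateField.adjoin k {v}) K' := by
    let f : K →ₐ[k] K' := IsScalarTower.toAlgHom k K K'
    have h1 : (IntermediateField.adjoin k {v}).map f = IntermediateField.adjoin k {algebraMap K K' v} := by
      rw [IntermediateField.adjoin_map, Set.image_singleton]; rfl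
    let e : IntermediateField.adjoin k {v} ≃ₐ[k] IntermediateField.adjoin k {algebraMap K K' v} :=
      ((IntermediateField.adjoin k {v}).equivMap f).trans (IntermediateField.equivOfEq h1)
    refine Module.Finite.of_equiv_equiv (A₁ := IntermediateField.adjoin k {algebraMap K K' v}) (B₁ := K')
      e.symm.toRingEquiv (RingEquiv.refl K') ?_
    ext x
    obtain ⟨y, rfl⟩ := e.surjective x
    simp only [RingHom.comp_apply]
    change algebraMap _ K' (e.symm (e y)) = algebraMap _ K' (e y)
    rw [e.symm_apply_apply]
    rfl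
  have hfin3 : FiniteDimensional (IntermediateField.adjoin k {v}) K :=
    FiniteDimensional.left (IntermediateField.adjoin k {v}) K K'
  exact IsFF.of_finite hv hfin3

end

end FF
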