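import Pool.Agent.Helper386.FF.Loc4

/-! The relation polynomial and reduced vectors. -/

set_option autoImplicit false
set_option linter.all false
set_option linter.overlappingInstances false

open Module FF

attribute [-instance] HahnSeries.powerSeriesAlgebra

namespace FF

section
variable {k : Type} [Field k]

theorem exists_primitive_mv (b : MvPolynomial (Fin 2) (OO k)) (hb : b ≠ 0) :
    ∃ (m : ℕ) (b' : MvPolynomial (Fin 2) (OO k)), b = (MvPolynomial.C PowerSeries.X) ^ m * b' ∧
      MvPolynomial.map (PowerSeries.constantCoeff (R := k)) b' ≠ 0 := by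
  have h1 : FiniteMultiplicity (MvPolynomial.C (PowerSeries.X : OO k)) b := by
    apply FiniteMultiplicity.of_not_isUnit
    · intro h
      have := h.map (MvPolynomial.constantCoeff (σ := Fin 2) (R := OO k))
      rw [MvPolynomial.constantCoeff_C] at this
      exact PowerSeries.X_irreducible.not_isUnit this
    · exact hb
  obtain ⟨c, hc, hd⟩ := h1.exists_eq_pow_mul_and_not_dvd
  refine ⟨_, c, hc, ?_⟩
  intro h0
  apply hd
  rw [MvPolynomial.C_dvd_iff_dvd_coeff]
  intro i
  rw [PowerSeries.X_dvd_iff]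
  have := congrArg (fun p => MvPolynomial.coeff i p) h0
  simpa [MvPolynomial.coeff_map] using this

variable {L3 : Type} [Field L3] [Algebra (RR k) L3] [Algebra k L3]
  [IsScalarTower k (RR k) L3]

theorem exists_relation [IsFF (RR k) L3] (g1 g2 : L3) : ∃ W : MvPolynomial (Fin 2) k, W ≠ 0 ∧
    ∀ w : Place k L3, OverY w → w.Reg g1 → w.Reg g2 →
      MvPolynomial.eval₂ (algebraMap k w.RF) ![w.red g1, w.red g2] W = 0 := by
  classical
  have hdep : ¬ AlgebraicIndependent (RR k) ![g1, g2] := by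
    intro h
    have h1 := h.lift_cardinalMk_le_trdeg
    rw [‹IsFF (RR k) L3›.trdeg] at h1
    simp only [Cardinal.mk_fin, Cardinal.lift_natCast, Cardinal.lift_one] at h1
    have : (2 : ℕ) ≤ 1 := by exact_mod_cast h1
    omega
  rw [algebraicIndependent_iff] at hdep
  push Not at hdep
  obtain ⟨G, hG, hG0⟩ := hdep
  obtain ⟨b, hb⟩ := IsLocalization.exist_integer_multiples_of_finset (nonZeroDivisors (OO k)) G.coeffs
  have hb0 : (b : OO k) ≠ 0 := nonZeroDivisors.ne_zero b.2
  have hbR : algebraMap (OO k) (RR k) (b : OO k) ≠ 0 := by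
    intro h
    exact hb0 (IsFractionRing.injective (OO k) (RR k) (by rw [h, map_zero]))
  obtain ⟨G', hG'⟩ : ∃ G' : MvPolynomial (Fin 2) (OO k),
      MvPolynomial.map (algebraMap (OO k) (RR k)) G' = MvPolynomial.C (algebraMap (OO k) (RR k) b) * G := by
    have : MvPolynomial.C (algebraMap (OO k) (RR k) b) * G ∈ Set.range (MvPolynomial.map (σ := Fin 2) (algebraMap (OO k) (RR k))) := by
      rw [MvPolynomial.mem_range_map_iff_coeffs_subset]
      intro c hc
      rw [Finset.mem_coe, MvPolynomial.mem_coeffs_iff] at hc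
      obtain ⟨n, hn, rfl⟩ := hc
      rw [MvPolynomial.coeff_C_mul]
      have hn' : MvPolynomial.coeff n G ≠ 0 := by
        intro h0
        rw [MvPolynomial.mem_support_iff, MvPolynomial.coeff_C_mul, h0, mul_zero] at hn
        exact hn rfl
      obtain ⟨d, hd⟩ := hb (MvPolynomial.coeff n G) (by
        rw [MvPolynomial.mem_coeffs_iff]
        exact ⟨n, by rwa [MvPolynomial.mem_support_iff], rfl⟩)
      exact ⟨d, by rw [hd, Algebra.smul_def]⟩
    exact this
  have hG'0 : G' ≠ 0 := by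
    rintro rfl
    rw [map_zero] at hG'
    rcases mul_eq_zero.1 hG'.symm with h | h
    · exact hbR (by simpa using h)
    · exact hG0 h
  obtain ⟨m, G'', hm, hW⟩ := exists_primitive_mv G' hG'0
  have hyL : algebraMap (RR k) L3 (SF.yv k) ≠ 0 := by simpa using yv_ne_zero (k := k)
  have hrel : MvPolynomial.eval₂ (ioO k L3) ![g1, g2] G'' = 0 := by
    have h1 : MvPolynomial.eval₂ (ioO k L3) ![g1, g2] G' = 0 := by
      have h2 : MvPolynomial.eval₂ (ioO k L3) ![g1, g2] G' =
          MvPolynomial.aeval ![g1, g2] (MvPolynomial.map (algebraMap (OO k) (RR k)) G') := by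
        rw [MvPolynomial.aeval_def, MvPolynomial.eval₂_map]; rfl
      rw [h2, hG', map_mul, hG, mul_zero]
    rw [hm, MvPolynomial.eval₂_mul, MvPolynomial.eval₂_pow, MvPolynomial.eval₂_C, ioO_X] at h1
    exact (mul_eq_zero.1 h1).resolve_left (pow_ne_zero _ hyL)
  refine ⟨_, hW, ?_⟩
  intro w hw h1 h2
  -- reduction as ring homomorphism
  let φ : MvPolynomial (Fin 2) (OO k) →+* L3 := MvPolynomial.eval₂Hom (ioO k L3) ![g1, g2]
  have hφC : ∀ a, φ (MvPolynomial.C a) = ioO k L3 a := fun a => MvPolynomial.eval₂_C _ _ a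
  have hφX : ∀ i, φ (MvPolynomial.X i) = ![g1, g2] i := fun i => MvPolynomial.eval₂_X _ _ i
  have hreg : ∀ q : MvPolynomial (Fin 2) (OO k), w.Reg (φ q) := by
    intro q
    induction q using MvPolynomial.induction_on with
    | C a => rw [hφC]; exact hw.reg a
    | add p q hp hq => rw [map_add]; exact w.reg_add hp hq
    | mul_X p i hp =>
      rw [map_mul, hφX]
      apply w.reg_mul hp
      fin_cases i
      · exact h1
      · exact h2
  let ψ : MvPolynomial (Fin 2) k →+* w.RF := MvPolynomial.eval₂Hom (algebraMap k w.RF) ![w.red g1, w.red g2]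
  have hψC : ∀ a, ψ (MvPolynomial.C a) = algebraMap k w.RF a := fun a => MvPolynomial.eval₂_C _ _ a
  have hψX : ∀ i, ψ (MvPolynomial.X i) = ![w.red g1, w.red g2] i := fun i => MvPolynomial.eval₂_X _ _ i
  have hh : (w.redHom φ hreg) = ψ.comp (MvPolynomial.map (PowerSeries.constantCoeff (R := k))) := by
    apply MvPolynomial.ringHom_ext
    · intro a
      have e1 : (w.redHom φ hreg) (MvPolynomial.C a) = w.red (φ (MvPolynomial.C a)) := rfl
      rw [e1, hφC, hw.red_ioO, RingHom.comp_apply, MvPolynomial.map_C, hψC]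
    · intro i
      have e1 : (w.redHom φ hreg) (MvPolynomial.X i) = w.red (φ (MvPolynomial.X i)) := rfl
      rw [e1, hφX, RingHom.comp_apply, MvPolynomial.map_X, hψX]
      fin_cases i
      · rfl
      · rfl
  have h3 : (w.redHom φ hreg) G'' = ψ (MvPolynomial.map (PowerSeries.constantCoeff (R := k)) G'') := by
    rw [hh]; rfl
  have e2 : (w.redHom φ hreg) G'' = w.red (φ G'') := rfl
  have e3 : φ G'' = 0 := hrel
  rw [e2, e3, w.red_zero] at h3
  exact h3.symm

/-- the vector `(1, g, g s(g))` -/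
def Xv (g g' : L3) : Fin 3 → L3 := ![1, g, g * g']

/-- the reduced vector -/
noncomputable def rv (w : Place k L3) (f : L3) (X : Fin 3 → L3) : Fin 3 → w.RF := fun j => w.red (f * X j)

theorem isMin_exists_scale (w : Place k L3) {X : Fin 3 → L3} (hX : ∃ j, X j ≠ 0) :
    ∃ f : L3, f ≠ 0 ∧ IsMin w X (- w.ord f) := by
  obtain ⟨n, hn⟩ := exists_isMin w hX
  obtain ⟨t, ht0, ht⟩ := w.surj
  refine ⟨t ^ (-n), zpow_ne_zero _ ht0, ?_⟩
  rw [w.ord_zpow, ht]
  have : -(-n * 1) = n := by ring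
  rwa [this]

theorem reg_scaled {w : Place k L3} {f : L3} (hf : f ≠ 0) {X : Fin 3 → L3} (h : IsMin w X (- w.ord f)) (j : Fin 3) :
    w.Reg (f * X j) := by
  by_cases h0 : X j = 0
  · left; rw [h0, mul_zero]
  · right
    have := (h.1 j).resolve_left h0
    rw [w.ord_mul hf h0]; omega

theorem rv_ne {w : Place k L3} {f : L3} (hf : f ≠ 0) {X : Fin 3 → L3} (h : IsMin w X (- w.ord f)) :
    ∃ j, rv w f X j ≠ 0 := by
  obtain ⟨j, hj0, hj⟩ := h.2
  refine ⟨j, w.red_ne_zero (mul_ne_zero hf hj0) ?_⟩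
  rw [w.ord_mul hf hj0, hj]; ring

theorem rv_scale {w : Place k L3} {f f' : L3} (hf : f ≠ 0) (hf' : f' ≠ 0) {X : Fin 3 → L3}
    (h : IsMin w X (- w.ord f)) (h' : IsMin w X (- w.ord f')) :
    w.red (f' / f) ≠ 0 ∧ rv w f' X = fun j => w.red (f' / f) * rv w f X j := by
  have h1 := h.unique h'
  have h2 : w.ord (f' / f) = 0 := by rw [w.ord_div hf' hf]; omega
  refine ⟨w.red_ne_zero (div_ne_zero hf' hf) h2, ?_⟩
  funext j
  unfold rv
  rw [← w.red_mul (Or.inr h2.ge) (reg_scaled hf h j)]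
  congr 1
  field_simp

variable [CharZero k]

/-- the degree of the reduced vector -/
theorem delta_indep {w : Place k L3} [IsFF k w.RF] {f f' : L3} (hf : f ≠ 0) (hf' : f' ≠ 0) {X : Fin 3 → L3}
    (h : IsMin w X (- w.ord f)) (h' : IsMin w X (- w.ord f')) :
    ddeg (md k (rv w f' X)) = ddeg (md k (rv w f X)) := by
  obtain ⟨h1, h2⟩ := rv_scale hf hf' h h'
  rw [h2, ddeg_md_smul (rv_ne hf h) h1]

open Classical in
/-- the degree `δ_w` -/
noncomputable def dl (w : Place k L3) (X : Fin 3 → L3) : ℤ :=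
  if h : IsFF k w.RF ∧ ∃ f : L3, f ≠ 0 ∧ IsMin w X (- w.ord f) then
    haveI := h.1
    ddeg (md k (rv w h.2.choose X))
  else 0

theorem dl_eq {w : Place k L3} [hw : IsFF k w.RF] {f : L3} (hf : f ≠ 0) {X : Fin 3 → L3}
    (h : IsMin w X (- w.ord f)) : dl w X = ddeg (md k (rv w f X)) := by
  have h1 : IsFF k w.RF ∧ ∃ f : L3, f ≠ 0 ∧ IsMin w X (- w.ord f) := ⟨hw, f, hf, h⟩
  unfold dl
  rw [dif_pos h1]
  exact (delta_indep h1.2.choose_spec.1 hf h1.2.choose_spec.2 h).symm

end
end FF
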