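import Pool.Agent.Helper386.FF.Loc7
import Pool.Agent.SF.PLStmt

/-! Local analysis at a place over the y-adic place. -/

set_option autoImplicit false
set_option linter.all false
set_option linter.overlappingInstances false

open Module FF

attribute [-instance] HahnSeries.powerSeriesAlgebra

namespace FF

section
variable {k : Type} [Field k] {L3 : Type} [Field L3] [Algebra (RR k) L3] [Algebra k L3]
  [IsScalarTower k (RR k) L3] [CharZero k]

/-- case B: the reduced vector -/
theorem dl_fixed (w : Place k L3) [IsFF k w.RF] (s : L3 ≃ₐ[k] L3) (hord : ∀ f, w.ord (s f) = w.ord f)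
    (g : L3) (x : k) (hx : x ≠ 0) (hg : g * s g * s (s g) = algebraMap k L3 x) :
    dl w (Xv g (s g)) = ddeg (md k (Yv (w.red g) (resIso w w s hord (w.red g)))) ∧
    w.red g * resIso w w s hord (w.red g) * resIso w w s hord (resIso w w s hord (w.red g)) =
      algebraMap k w.RF x := by
  have hxL : algebraMap k L3 x ≠ 0 := by simpa using hx
  have hg0 : g ≠ 0 := by rintro rfl; rw [zero_mul, zero_mul] at hg; exact hxL hg.symm
  have hsg0 : s g ≠ 0 := by simpa using hg0
  have hssg0 : s (s g) ≠ 0 := by simpa using hg0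
  have hog : w.ord g = 0 := by
    have h1 := w.ord_const hx
    rw [← hg, w.ord_mul (mul_ne_zero hg0 hsg0) hssg0, w.ord_mul hg0 hsg0, hord, hord, hord] at h1
    omega
  have hrg : w.Reg g := Or.inr hog.ge
  have hrsg : w.Reg (s g) := Or.inr (by rw [hord, hog])
  have hmin : IsMin w (Xv g (s g)) (- w.ord 1) := by
    rw [w.ord_one, neg_zero]
    constructor
    · intro j
      fin_cases j
      · right; exact w.ord_one.ge
      · right; exact hog.ge
      · right
        change 0 ≤ w.ord (g * s g)
        rw [w.ord_mul hg0 hsg0, hord, hog]; simp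
    · exact ⟨0, one_ne_zero, w.ord_one⟩
  have h2 := resIso_red w w s hord hrg
  have h3 := resIso_red w w s hord hrsg
  constructor
  · rw [dl_eq one_ne_zero hmin]
    congr 2
    funext j
    fin_cases j
    · change w.red (1 * 1) = 1
      rw [one_mul, w.red_one]
    · change w.red (1 * g) = w.red g
      rw [one_mul]
    · change w.red (1 * (g * s g)) = w.red g * _
      rw [one_mul, w.red_mul hrg hrsg, h2]
  · rw [h2, h3, ← w.red_mul hrg hrsg, ← w.red_mul (w.reg_mul hrg hrsg) (Or.inr (by rw [hord, hord, hog])), hg]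
    rfl

/-- divisibility of the degree of a divisor when all degrees of places are divisible -/
theorem dvd_ddeg {κ : Type*} [Field κ] [Algebra k κ] (J m : ℤ) (H : ∀ P : Place k κ, J ∣ m * P.deg)
    (D : Place k κ →₀ ℤ) : J ∣ m * ddeg D := by
  unfold ddeg
  rw [Finsupp.sum, Finset.mul_sum]
  apply Finset.dvd_sum
  intro P _
  have : m * (D P * P.deg) = (m * P.deg) * D P := by ring
  rw [this]
  exact (H P).mul_right _

theorem loc_place (PL_II : SF.PLStmtII) (PL_I : SF.PLStmtI) [IsFF (RR k) L3] (z x : k) (hk : SF.IsK k z x)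
    (L : IntermediateField (RR k) L3) (s : L3 ≃ₐ[RR k] L3)
    (hs : ∀ f, s (s (s f)) = f) (hL : ∀ f, f ∈ L ↔ s f = f)
    (ϖ : L3) (hϖ : ϖ ^ 3 = algebraMap (RR k) L3 (SF.yv k)) (ζ : k) (hζ : IsPrimitiveRoot ζ 3)
    (hsϖ : s ϖ = algebraMap k L3 ζ * ϖ)
    (g : L3) (hg : g * s g * s (s g) = algebraMap k L3 x)
    (c0 : Finset L) (J : ℕ) (hJ : ∃ j, J = 3 ^ j)
    (HJ : ∀ (Ψ : Type) [Field Ψ] [Algebra (RR k) Ψ], FiniteDimensional (RR k) Ψ →
      Nonempty (Algebra.adjoin (RR k) (c0 : Set L) →ₐ[RR k] Ψ) →
      J ∣ finrank (RR k) Ψ)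
    (w : Place k L3) (hw : OverY w) [IsFF k w.RF] :
    (w.comp (s.restrictScalars k) ≠ w →
      (J : ℤ) ∣ w.ord (algebraMap (RR k) L3 (SF.yv k)) * dl w (Xv g (s g))) ∧
    (w.comp (s.restrictScalars k) = w →
      (3 * J : ℤ) ∣ w.ord (algebraMap (RR k) L3 (SF.yv k)) * dl w (Xv g (s g))) := by
  classical
  let s' : L3 ≃ₐ[k] L3 := s.restrictScalars k
  have hs' : ∀ f, s' (s' (s' f)) = f := hs
  have hfix : ∀ f, s f = f ↔ f ∈ Set.range (algebraMap L L3) := by
    intro f
    rw [← hL]
    constructor
    · intro h; exact ⟨⟨f, h⟩, rfl⟩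
    · rintro ⟨c, rfl⟩; exact c.2
  have hfix' : ∀ f, s' f = f ↔ f ∈ Set.range (algebraMap L L3) := hfix
  have hx0 : x ≠ 0 := by rintro rfl; exact hk.notcube ⟨0, by norm_num⟩
  have hζ1 : ζ ≠ 1 := hζ.ne_one (by norm_num)
  have hyL : algebraMap (RR k) L3 (SF.yv k) ≠ 0 := by simpa using yv_ne_zero (k := k)
  have hϖ0 : ϖ ≠ 0 := by
    rintro rfl
    apply hyL; rw [← hϖ]; norm_num
  have hne : ∃ f, s f ≠ f := by
    refine ⟨ϖ, fun h => hζ1 ?_⟩
    rw [hsϖ] at h
    have h1 : algebraMap k L3 ζ * ϖ = 1 * ϖ := by rw [h, one_mul]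
    have h2 := mul_right_cancel₀ hϖ0 h1
    exact (algebraMap k L3).injective (by rw [h2, map_one])
  have hn : finrank L L3 = 3 := finrank_eq_three s hs hfix hne
  have hfd : FiniteDimensional L L3 := FiniteDimensional.of_finrank_pos (by omega)
  have hffL : IsFF (RR k) L := IsFF.of_isAlgebraic (k := RR k) (K := L) (K' := L3)
  haveI hst1 : IsScalarTower k L L3 := IsScalarTower.of_algebraMap_eq (fun c => rfl)
  haveI hst2 : IsScalarTower k (RR k) L := IsScalarTower.of_algebraMap_eq (fun c => by
    apply Subtype.ext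
    change algebraMap k L3 c = algebraMap (RR k) L3 (algebraMap k (RR k) c)
    rw [← IsScalarTower.algebraMap_apply k (RR k) L3])
  obtain ⟨e, w0, ho⟩ := exists_over_alg (k := k) (K := L) w
  have hyw : w.ord (algebraMap (RR k) L3 (SF.yv k)) = e * w0.ord (algebraMap (RR k) L (SF.yv k)) := by
    rw [← ho.2]; rfl
  obtain ⟨m, hm⟩ : ∃ m, m = w0.ord (algebraMap (RR k) L (SF.yv k)) := ⟨_, rfl⟩
  have hm0 : 0 < m := by
    have h1 := hw.pos
    rw [hyw, ← hm] at h1
    have h2 : (0 : ℤ) < e := by exact_mod_cast ho.1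
    exact (mul_pos_iff_of_pos_left h2).1 h1
  have hwϖ : w.ord (algebraMap (RR k) L3 (SF.yv k)) = 3 * w.ord ϖ := by
    rw [← hϖ, w.ord_pow]; norm_num
  have hyy : w.ord (algebraMap (RR k) L3 (SF.yv k)) = e * m := by rw [hyw, hm]
  -- reduction to the two cases
  suffices hAB : (Function.Surjective ho.resMap → (J : ℤ) ∣ m * dl w (Xv g (s g))) ∧
      (e = 1 → w.comp s' = w → @finrank w0.RF w.RF _ _ ho.resMap.toRingHom.toAlgebra.toModule = 3 →
        (3 * J : ℤ) ∣ m * dl w (Xv g (s g))) by
    have hcc := cyclic_cubic s' hs' hfix' hne w w0 e ho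
    constructor
    · intro h
      obtain ⟨he, hsurj⟩ := hcc.1 h
      rw [hyy, he, Nat.cast_one, one_mul]
      exact hAB.1 hsurj
    · intro h
      rcases hcc.2 h with ⟨he, hsurj⟩ | ⟨he, hf⟩
      · rw [hyy, he]
        have := mul_dvd_mul_left 3 (hAB.1 hsurj)
        rw [← mul_assoc] at this
        exact_mod_cast this
      · rw [hyy, he, Nat.cast_one, one_mul]
        exact hAB.2 he h hf
  by_cases hx : ∃ c : w0.RF, c ^ 3 = algebraMap k w0.RF x
  · -- Case I
    obtain ⟨c, hc⟩ := hx
    obtain ⟨π, hπ0, hπ⟩ := w0.surj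
    have HH : ∀ [IsFF k w0.RF], ∀ p : Place k w0.RF, (J : ℤ) ∣ m * p.deg ∧
        (J : ℤ) ∣ p.ord (w0.red (algebraMap (RR k) L (SF.yv k) / π ^ m)) * p.deg := by
      intro _ p
      obtain ⟨A, hA⟩ := PL_I k L w0 m hm.symm hm0 π hπ p _ rfl c0
      have hJa : ∀ a : ℤ, A ≤ a → (J : ℤ) ∣ (a * m + p.ord (w0.red (algebraMap (RR k) L (SF.yv k) / π ^ m))) * p.deg := by
        intro a ha
        obtain ⟨Ψ, i1, i2, h1, h2, h3⟩ := hA a ha
        rw [← h2]
        exact_mod_cast HJ Ψ h1 h3
      have h1 := hJa A le_rfl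
      have h2 := hJa (A + 1) (by omega)
      have h3 : (J : ℤ) ∣ m * p.deg := by
        have := dvd_sub h2 h1
        have e1 : ((A + 1) * m + p.ord (w0.red (algebraMap (RR k) L (SF.yv k) / π ^ m))) * p.deg
          - (A * m + p.ord (w0.red (algebraMap (RR k) L (SF.yv k) / π ^ m))) * p.deg = m * p.deg := by ring
        rwa [e1] at this
      refine ⟨h3, ?_⟩
      have h4 := dvd_sub h1 (h3.mul_left A)
      have e2 : (A * m + p.ord (w0.red (algebraMap (RR k) L (SF.yv k) / π ^ m))) * p.deg - A * (m * p.deg) =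
        p.ord (w0.red (algebraMap (RR k) L (SF.yv k) / π ^ m)) * p.deg := by ring
      rwa [e2] at h4
    constructor
    · intro hsurj
      let ι : w0.RF ≃ₐ[k] w.RF := AlgEquiv.ofBijective ho.resMap ⟨ho.resMap.toRingHom.injective, hsurj⟩
      haveI : IsFF k w0.RF := IsFF.transport ι.symm
      have h1 : ∀ P : Place k w.RF, (J : ℤ) ∣ m * P.deg := by
        intro P
        rw [← P.deg_pull ι]
        exact (HH (P.pull ι)).1
      by_cases h : ∃ f : L3, f ≠ 0 ∧ IsMin w (Xv g (s g)) (- w.ord f)
      · obtain ⟨f, hf, hmin⟩ := h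
        rw [dl_eq hf hmin]
        exact dvd_ddeg _ _ h1 _
      · unfold dl
        rw [dif_neg (fun h' => h h'.2), mul_zero]
        exact dvd_zero _
    · intro he hws hf3
      letI : Algebra w0.RF w.RF := ho.resMap.toRingHom.toAlgebra
      haveI : IsScalarTower k w0.RF w.RF :=
        IsScalarTower.of_algebraMap_eq (fun c => (ho.resMap.commutes c).symm)
      have hf3' : finrank w0.RF w.RF = 3 := hf3
      haveI : FiniteDimensional w0.RF w.RF := FiniteDimensional.of_finrank_pos (by omega)
      haveI : IsFF k w0.RF := IsFF.of_isAlgebraic (k := k) (K := w0.RF) (K' := w.RF)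
      have hord : ∀ f, w.ord (s' f) = w.ord f := by
        intro f
        rw [← w.comp_ord s', hws]
      obtain ⟨hdl, hgg⟩ := dl_fixed w s' hord g x hx0 hg
      have hdl' : dl w (Xv g (s g)) = ddeg (md k (Yv (w.red g) (resIso w w s' hord (w.red g)))) := hdl
      rw [hdl']
      let σ : w.RF ≃ₐ[k] w.RF := resIso w w s' hord
      have hσr : ∀ f, w.Reg f → σ (w.red f) = w.red (s f) := fun f hf => resIso_red w w s' hord hf
      have hreg : ∀ f, w.Reg f → w.Reg (s f) := by
        intro f hf
        rcases hf with h | h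
        · left; rw [h, map_zero]
        · right
          have h1 : w.ord (s f) = w.ord f := hord f
          rw [h1]; exact h
      have hσ3 : ∀ c, σ (σ (σ c)) = c := by
        intro c
        obtain ⟨f, hf, rfl⟩ := w.red_surjective c
        rw [hσr f hf, hσr _ (hreg f hf), hσr _ (hreg _ (hreg f hf)), hs]
      obtain ⟨q, hq⟩ : ∃ q, q = w.ord ϖ := ⟨_, rfl⟩
      have hmq : m = 3 * q := by
        rw [hyy, he, ← hq, Nat.cast_one, one_mul] at hwϖ
        exact hwϖ
      let πL : L3 := algebraMap L L3 π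
      have hπL0 : πL ≠ 0 := by simpa [πL] using hπ0
      have hπLo : w.ord πL = 1 := by
        simp only [πL]
        rw [ho.2, hπ, he]; norm_num
      have hsπ : s πL = πL := (hfix _).2 ⟨π, rfl⟩
      let ρ : L3 := ϖ * πL ^ (-q)
      have hρ0 : ρ ≠ 0 := mul_ne_zero hϖ0 (zpow_ne_zero _ hπL0)
      have hρo : w.ord ρ = 0 := by
        simp only [ρ]
        rw [w.ord_mul hϖ0 (zpow_ne_zero _ hπL0), w.ord_zpow, hπLo, ← hq]; ring
      have hρr : w.Reg ρ := Or.inr hρo.ge
      have hsρ : s ρ = algebraMap k L3 ζ * ρ := by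
        simp only [ρ]
        rw [map_mul, map_zpow₀, hsπ, hsϖ]; ring
      have hσρ : σ (w.red ρ) = algebraMap k w.RF ζ * w.red ρ := by
        rw [hσr ρ hρr, hsρ, w.red_mul (w.reg_const ζ) hρr]
        rfl
      have hρn : w.red ρ ≠ 0 := w.red_ne_zero hρ0 hρo
      have hη : w0.Reg (algebraMap (RR k) L (SF.yv k) / π ^ m) := by
        right
        have hyL' : algebraMap (RR k) L (SF.yv k) ≠ 0 := by simpa using yv_ne_zero (k := k)
        rw [w0.ord_div hyL' (zpow_ne_zero _ hπ0), w0.ord_zpow, hπ, ← hm]; simp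
      have hρ3 : w.red ρ ^ 3 = algebraMap w0.RF w.RF (w0.red (algebraMap (RR k) L (SF.yv k) / π ^ m)) := by
        have e1 : algebraMap w0.RF w.RF (w0.red (algebraMap (RR k) L (SF.yv k) / π ^ m)) =
          ho.resMap (w0.red (algebraMap (RR k) L (SF.yv k) / π ^ m)) := rfl
        rw [e1, ho.resMap_red hη, ← w.red_pow hρr]
        congr 1
        simp only [ρ]
        rw [map_div₀, map_zpow₀, mul_pow, hϖ, hmq, div_eq_mul_inv, ← zpow_natCast (πL ^ (-q)), ← zpow_mul]
        congr 1
        rw [← zpow_neg]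
        congr 1
        push_cast; ring
      have hfixσ1 : ∀ c : w0.RF, σ (algebraMap w0.RF w.RF c) = algebraMap w0.RF w.RF c := by
        intro c
        obtain ⟨f, hf, rfl⟩ := w0.red_surjective c
        have e1 : algebraMap w0.RF w.RF (w0.red f) = w.red (algebraMap L L3 f) := ho.resMap_red hf
        rw [e1, hσr _ (ho.reg.2 hf), (hfix _).2 ⟨f, rfl⟩]
      have hfixσ : ∀ c, σ c = c ↔ c ∈ Set.range (algebraMap w0.RF w.RF) := by
        intro c
        constructor
        · intro hc
          let F' : IntermediateField w0.RF w.RF :=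
            { carrier := {c | σ c = c}
              mul_mem' := by
                intro a b ha hb
                change σ (a * b) = a * b
                rw [map_mul, show σ a = a from ha, show σ b = b from hb]
              one_mem' := map_one σ
              add_mem' := by
                intro a b ha hb
                change σ (a + b) = a + b
                rw [map_add, show σ a = a from ha, show σ b = b from hb]
              zero_mem' := map_zero σ
              algebraMap_mem' := hfixσ1
              inv_mem' := by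
                intro a ha
                change σ a⁻¹ = a⁻¹
                rw [map_inv₀, show σ a = a from ha] }
          have h1 := Module.finrank_mul_finrank w0.RF F' w.RF
          rw [hf3'] at h1
          have h2 : F' ≠ ⊤ := by
            intro ht
            have : w.red ρ ∈ F' := by rw [ht]; trivial
            have h3 : σ (w.red ρ) = w.red ρ := this
            rw [hσρ] at h3
            have h4 : algebraMap k w.RF ζ * w.red ρ = 1 * w.red ρ := by rw [h3, one_mul]
            have h5 := mul_right_cancel₀ hρn h4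
            exact hζ1 ((algebraMap k w.RF).injective (by rw [h5, map_one]))
          have h3 : finrank F' w.RF ≠ 1 := by
            intro h
            apply h2
            exact IntermediateField.finrank_eq_one_iff_eq_top.1 h
          have h4 : finrank w0.RF F' = 1 := by
            have hd : finrank w0.RF F' ∣ 3 := ⟨_, h1.symm⟩
            rcases (Nat.dvd_prime Nat.prime_three).1 hd with h | h
            · exact h
            · exfalso
              rw [h] at h1
              apply h3
              omega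
          have h5 : F' = ⊥ := IntermediateField.finrank_eq_one_iff.1 h4
          have h6 : c ∈ F' := hc
          rw [h5, IntermediateField.mem_bot] at h6
          exact h6
        · rintro ⟨d, rfl⟩; exact hfixσ1 d
      exact caseI_B z x hk.prim hx0 σ hσ3 hfixσ (w.red ρ) _ hρn hρ3 ζ hζ1 hσρ (w.red g) hgg c hc m
        ⟨q, hmq⟩ J hJ (fun p => (HH p).1) (fun p => (HH p).2)
  · -- Case II
    have h40 : ∀ [IsFF k w0.RF], (J : ℤ) ∣ m := by
      intro _
      obtain ⟨Ψ, i1, i2, h1, h2, h3⟩ := PL_II k z x hk L w0 (by rw [← hm]; exact hm0) hx c0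
      rw [hm, ← h2]
      exact_mod_cast HJ Ψ h1 h3
    refine ⟨fun hsurj => ?_, fun he hws hf3 => ?_⟩
    · let ι : w0.RF ≃ₐ[k] w.RF := AlgEquiv.ofBijective ho.resMap ⟨ho.resMap.toRingHom.injective, hsurj⟩
      haveI : IsFF k w0.RF := IsFF.transport ι.symm
      exact h40.mul_right _
    have h4 : (J : ℤ) ∣ m := by
      letI : Algebra w0.RF w.RF := ho.resMap.toRingHom.toAlgebra
      haveI : IsScalarTower k w0.RF w.RF :=
        IsScalarTower.of_algebraMap_eq (fun c => (ho.resMap.commutes c).symm)
      have hf3' : finrank w0.RF w.RF = 3 := hf3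
      haveI : FiniteDimensional w0.RF w.RF := FiniteDimensional.of_finrank_pos (by omega)
      haveI : IsFF k w0.RF := IsFF.of_isAlgebraic (k := k) (K := w0.RF) (K' := w.RF)
      exact h40
    have hord : ∀ f, w.ord (s' f) = w.ord f := by
      intro f
      rw [← w.comp_ord s', hws]
    obtain ⟨hdl, hgg⟩ := dl_fixed w s' hord g x hx0 hg
    have hdl' : dl w (Xv g (s g)) = ddeg (md k (Yv (w.red g) (resIso w w s' hord (w.red g)))) := hdl
    rw [hdl', mul_comm m]
    apply mul_dvd_mul _ h4
    have hreg : ∀ f, w.Reg f → w.Reg (s' f) := by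
      intro f hf
      rcases hf with h | h
      · left; rw [h, map_zero]
      · right
        rw [hord]; exact h
    refine three_dvd_ddeg_Yv (resIso w w s' hord) ?_ (w.red g) x hk.notcube hgg
    intro c
    obtain ⟨f, hf, rfl⟩ := w.red_surjective c
    rw [resIso_red w w s' hord hf, resIso_red w w s' hord (hreg f hf),
      resIso_red w w s' hord (hreg _ (hreg f hf)), hs']

end

end FF
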