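import Pool.Agent.Helper386.FF.Loc8

/-! The local theorem. -/

set_option autoImplicit false
set_option linter.all false
set_option linter.overlappingInstances false

open Module FF

attribute [-instance] HahnSeries.powerSeriesAlgebra

namespace FF

section
variable {R L3 : Type*} [Field R] [Field L3] [Algebra R L3]

theorem dvd_of_kummer (u ϖ : L3) (y : R) (hϖ : ϖ ^ 3 = algebraMap R L3 y) (hϖ0 : ϖ ≠ 0) (ζ : R) (hζ : IsPrimitiveRoot ζ 3)
    (J : ℕ) (h : 3 * J ∣ finrank (IntermediateField.adjoin R {u}) L3) :
    J ∣ finrank (IntermediateField.adjoin R {ϖ, u}) L3 := by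
  let F1 := IntermediateField.adjoin R {u}
  let F2 : IntermediateField F1 L3 := IntermediateField.adjoin F1 {ϖ}
  have hint : IsIntegral F1 ϖ := by
    have h1 : IsIntegral F1 (ϖ ^ 3) := by
      rw [hϖ, IsScalarTower.algebraMap_apply R F1 L3]
      exact isIntegral_algebraMap
    exact IsIntegral.of_pow (by norm_num) h1
  have hF2 : finrank (IntermediateField.adjoin R {ϖ, u}) L3 = finrank F2 L3 := by
    have h1 : F2.restrictScalars R = IntermediateField.adjoin R {ϖ, u} := by
      simp only [F2, F1]
      rw [IntermediateField.adjoin_adjoin_left]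
      congr 1
      rw [Set.union_comm]; rfl
    rw [← h1]; rfl
  rw [hF2]
  have hmul := Module.finrank_mul_finrank F1 F2 L3
  have hdeg : finrank F1 F2 = 1 ∨ finrank F1 F2 = 3 := by
    by_cases hb : ∃ b : F1, b ^ 3 = algebraMap R F1 y
    · left
      obtain ⟨b, hb⟩ := hb
      have hb3 : (b : L3) ^ 3 = algebraMap R L3 y := by
        have := congrArg (algebraMap F1 L3) hb
        rw [map_pow, ← IsScalarTower.algebraMap_apply] at this
        exact this
      have hb0 : (b : L3) ≠ 0 := by
        intro h0
        rw [h0] at hb3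
        apply hϖ0
        rw [← hb3] at hϖ
        have : ϖ ^ 3 = 0 := by rw [hϖ]; norm_num
        exact pow_eq_zero_iff (by norm_num) |>.1 this
      have h1 : (ϖ / b) ^ 3 = 1 := by
        rw [div_pow, hϖ, hb3]
        apply div_self
        rw [← hb3]; exact pow_ne_zero _ hb0
      have hζL : IsPrimitiveRoot (algebraMap R L3 ζ) 3 := hζ.map_of_injective (algebraMap R L3).injective
      obtain ⟨i, -, hi⟩ := hζL.eq_pow_of_pow_eq_one h1
      have h2 : ϖ = algebraMap F1 L3 (algebraMap R F1 ζ ^ i * b) := by
        rw [map_mul, map_pow, ← IsScalarTower.algebraMap_apply, hi]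
        change ϖ = ϖ / b * b
        field_simp
      have h3 : F2 = ⊥ := by
        simp only [F2]
        rw [IntermediateField.adjoin_simple_eq_bot_iff, h2]
        exact IntermediateField.algebraMap_mem _ _
      rw [h3, IntermediateField.finrank_bot]
    · right
      have hirr : Irreducible (Polynomial.X ^ 3 - Polynomial.C (algebraMap R F1 y)) :=
        X_pow_sub_C_irreducible_of_prime Nat.prime_three (fun b hb' => hb ⟨b, hb'⟩)
      have hmin : Polynomial.X ^ 3 - Polynomial.C (algebraMap R F1 y) = minpoly F1 ϖ := by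
        apply minpoly.eq_of_irreducible_of_monic hirr
        · rw [map_sub, map_pow, Polynomial.aeval_X, Polynomial.aeval_C, ← IsScalarTower.algebraMap_apply, hϖ, sub_self]
        · exact Polynomial.monic_X_pow_sub_C _ (by norm_num)
      have h1 : finrank F1 F2 = (minpoly F1 ϖ).natDegree := IntermediateField.adjoin.finrank hint
      rw [h1, ← hmin]
      exact Polynomial.natDegree_X_pow_sub_C
  change 3 * J ∣ finrank F1 L3 at h
  rw [← hmul] at h
  rcases hdeg with h1 | h1
  · rw [h1, one_mul] at h
    exact (Dvd.intro_left 3 rfl).trans h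
  · rw [h1] at h
    exact Nat.dvd_of_mul_dvd_mul_left (by norm_num) h

end

end FF

namespace SF

theorem LOC_core_of (PL_II : PLStmtII) (PL_I : PLStmtI) (k : Type) [Field k] [CharZero k] (z x : k) (hk : IsK k z x)
    (L3 : Type) [Field L3] [Algebra (LaurentSeries k) L3] [Algebra k L3]
    [IsScalarTower k (LaurentSeries k) L3] [IsFF (LaurentSeries k) L3]
    (L : IntermediateField (LaurentSeries k) L3) (s : L3 ≃ₐ[LaurentSeries k] L3)
    (hs : ∀ f, s (s (s f)) = f) (hL : ∀ f, f ∈ L ↔ s f = f)
    (ϖ : L3) (hϖ : ϖ ^ 3 = algebraMap (LaurentSeries k) L3 (yv k)) (ζ : k) (hζ : IsPrimitiveRoot ζ 3)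
    (hsϖ : s ϖ = algebraMap k L3 ζ * ϖ)
    (g : L3) (hg : g * s g * s (s g) = algebraMap k L3 x)
    (c0 : Finset L) (J : ℕ) (hJ : ∃ j, J = 3 ^ j)
    (HJ : ∀ (Ψ : Type) [Field Ψ] [Algebra (LaurentSeries k) Ψ], FiniteDimensional (LaurentSeries k) Ψ →
      Nonempty (Algebra.adjoin (LaurentSeries k) (c0 : Set L) →ₐ[LaurentSeries k] Ψ) →
      J ∣ finrank (LaurentSeries k) Ψ) :
    ∃ W : MvPolynomial (Fin 2) k, W ≠ 0 ∧ ∀ p : Fin 2 → k, MvPolynomial.eval p W ≠ 0 →
      g * s g ≠ algebraMap k L3 (p 1) ∧
      J ∣ finrank (IntermediateField.adjoin (LaurentSeries k)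
        {ϖ, (g - algebraMap k L3 (p 0)) / (g * s g - algebraMap k L3 (p 1))}) L3 := by
  classical
  obtain ⟨W, hW0, hW⟩ := exists_relation (k := k) g (g * s g)
  refine ⟨W, hW0, fun p hp => ?_⟩
  have hx0 : x ≠ 0 := by rintro rfl; exact hk.notcube ⟨0, by norm_num⟩
  have hxL : algebraMap k L3 x ≠ 0 := by simpa using hx0
  have hsk : ∀ c : k, s (algebraMap k L3 c) = algebraMap k L3 c := by
    intro c
    rw [IsScalarTower.algebraMap_apply k (LaurentSeries k) L3, AlgEquiv.commutes]
  have hyL : algebraMap (LaurentSeries k) L3 (yv k) ≠ 0 := by simpa using yv_ne_zero (k := k)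
  have hϖ0 : ϖ ≠ 0 := by
    rintro rfl
    apply hyL; rw [← hϖ]; norm_num
  have hne : g * s g ≠ algebraMap k L3 (p 1) := by
    intro h
    have h1 : s g * s (s g) = algebraMap k L3 (p 1) := by rw [← map_mul, h, hsk]
    have h2 : g * algebraMap k L3 (p 1) = algebraMap k L3 x := by rw [← h1, ← hg]; ring
    have hp0 : algebraMap k L3 (p 1) ≠ 0 := by
      intro h0; rw [h0, mul_zero] at h2; exact hxL h2.symm
    have h3 : g = algebraMap k L3 (x / p 1) := by
      rw [map_div₀, eq_div_iff hp0, h2]
    apply hk.notcube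
    refine ⟨x / p 1, (algebraMap k L3).injective ?_⟩
    rw [← hg, map_pow]
    rw [h3, hsk, hsk]; ring
  refine ⟨hne, ?_⟩
  have hB : g * s g - algebraMap k L3 (p 1) ≠ 0 := sub_ne_zero.2 hne
  set u : L3 := (g - algebraMap k L3 (p 0)) / (g * s g - algebraMap k L3 (p 1)) with hu
  by_cases hut : Transcendental (LaurentSeries k) u
  · -- transcendental case
    have hprim : IsPrimitiveRoot (algebraMap k (LaurentSeries k) ζ) 3 :=
      hζ.map_of_injective (algebraMap k (LaurentSeries k)).injective
    apply dvd_of_kummer u ϖ (yv k) hϖ hϖ0 _ hprim J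
    obtain ⟨S, hS, hSff, hsum⟩ := gauss_sum u hut
    let s' : L3 ≃ₐ[k] L3 := s.restrictScalars k
    have hgs' : g * s' g * s' (s' g) = algebraMap k L3 x := hg
    let X := Xv g (s g)
    have hsy : ∀ w : Place k L3, (w.comp s').ord (algebraMap (LaurentSeries k) L3 (yv k)) =
        w.ord (algebraMap (LaurentSeries k) L3 (yv k)) := by
      intro w
      rw [w.comp_ord]
      change w.ord (s _) = _
      rw [AlgEquiv.commutes]
    have hcompO : ∀ w : Place k L3, OverY w → OverY (w.comp s') := by
      intro w hw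
      refine ⟨fun f => ?_, by rw [hsy]; exact hw.pos⟩
      have h1 := hw.reg f
      unfold Place.Reg at h1 ⊢
      rw [w.comp_ord]
      change _ ∨ 0 ≤ w.ord (s (ioO k L3 f))
      have h2 : s (ioO k L3 f) = ioO k L3 f := by
        unfold ioO
        rw [RingHom.comp_apply, AlgEquiv.commutes]
      rw [h2]; exact h1
    have hdlc : ∀ w : Place k L3, dl (w.comp s') X = dl w X := by
      intro w
      by_cases h : IsFF k w.RF
      · exact (dl_comp w s' g x hx0 hgs').2
      · have h2 : ¬ IsFF k (w.comp s').RF := by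
          intro h'
          exact h (IsFF.transport (resIso (w.comp s') w s' (fun _ => rfl)))
        have h3 : dl w X = 0 := dif_neg (fun h' => h h'.1)
        have h4 : dl (w.comp s') X = 0 := dif_neg (fun h' => h2 h'.1)
        rw [h3, h4]
    have hkey : ∀ w : Place k L3, OverY w → ∀ [IsFF k w.RF],
        (GoodU w u → dl w X = finrank (IntermediateField.adjoin k {w.red u}) w.RF) ∧
        (dl w X ≠ 0 → GoodU w u) := by
      intro w hw _
      exact key w hw g (s g) W (hW w hw) p hp hB
    have hsumZ : ((∑ w ∈ S, (w.ord (algebraMap (LaurentSeries k) L3 (yv k))).toNat *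
        finrank (IntermediateField.adjoin k {w.red u}) w.RF : ℕ) : ℤ) =
        ∑ w ∈ S, w.ord (algebraMap (LaurentSeries k) L3 (yv k)) * dl w X := by
      push_cast
      refine Finset.sum_congr rfl fun w hwS => ?_
      have hG := (hS w).1 hwS
      haveI := hSff w hwS
      rw [(hkey w hG.ov).1 hG, Int.toNat_of_nonneg hG.ov.pos.le]
    have h3J : (3 * J : ℤ) ∣ ∑ w ∈ S, w.ord (algebraMap (LaurentSeries k) L3 (yv k)) * dl w X := by
      have hloc : ∀ w ∈ S, (w.comp s' ≠ w →
          (J : ℤ) ∣ w.ord (algebraMap (LaurentSeries k) L3 (yv k)) * dl w X) ∧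
          (w.comp s' = w → (3 * J : ℤ) ∣ w.ord (algebraMap (LaurentSeries k) L3 (yv k)) * dl w X) := by
        intro w hwS
        haveI := hSff w hwS
        exact loc_place PL_II PL_I z x hk L s hs hL ϖ hϖ ζ hζ hsϖ g hg c0 J hJ HJ w ((hS w).1 hwS).ov
      apply dvd_sum_orbits (fun w : Place k L3 => w.comp s') _ _
        (fun w => w.ord (algebraMap (LaurentSeries k) L3 (yv k)) * dl w X) _ _ _ rfl
      · intro w hwS
        have hG := (hS w).1 hwS
        haveI := hSff w hwS
        have h1 := (hkey w hG.ov).1 hG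
        have hfin := IsFF.finite hG.tr
        have h2 : 0 < finrank (IntermediateField.adjoin k {w.red u}) w.RF := Module.finrank_pos
        have h3 : dl (w.comp s') X ≠ 0 := by
          rw [hdlc, h1]
          exact_mod_cast h2.ne'
        haveI : IsFF k (w.comp s').RF := (dl_comp w s' g x hx0 hgs').1
        exact (hS _).2 ((hkey (w.comp s') (hcompO w hG.ov)).2 h3)
      · intro w hwS hfix
        exact (hloc w hwS).2 hfix
      · intro w hwS hfix
        exact mul_dvd_mul_left 3 ((hloc w hwS).1 hfix)
      · intro w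
        ext f
        change w.ord (s (s (s f))) = w.ord f
        rw [hs]
      · intro w
        change (w.comp s').ord _ * dl (w.comp s') X = _
        rw [hsy, hdlc]
    rw [← hsumZ, hsum] at h3J
    exact_mod_cast h3J
  · -- algebraic case
    have hua : IsAlgebraic (LaurentSeries k) u := by
      by_contra h; exact hut h
    have hint : ∀ t ∈ ({ϖ, u} : Set L3), IsIntegral (LaurentSeries k) t := by
      intro t ht
      rcases ht with rfl | rfl
      · have h1 : IsIntegral (LaurentSeries k) (t ^ 3) := by rw [hϖ]; exact isIntegral_algebraMap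
        exact IsIntegral.of_pow (by norm_num) h1
      · exact hua.isIntegral
    have halg : Algebra.IsAlgebraic (LaurentSeries k) (IntermediateField.adjoin (LaurentSeries k) {ϖ, u}) :=
      IntermediateField.isAlgebraic_adjoin hint
    have h0 : finrank (IntermediateField.adjoin (LaurentSeries k) {ϖ, u}) L3 = 0 := by
      apply Module.finrank_of_not_finite
      intro hfin
      have h2 : Algebra.IsAlgebraic (LaurentSeries k) L3 :=
        Algebra.IsAlgebraic.trans (LaurentSeries k) (IntermediateField.adjoin (LaurentSeries k) {ϖ, u}) L3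
      obtain ⟨f, hf⟩ := IsFF.exists_transcendental (k := LaurentSeries k) (K := L3)
      exact hf (h2.isAlgebraic f)
    rw [h0]
    exact dvd_zero _

end SF
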